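import Mathlib

/-!
# Averages over the cube
-/

namespace Pool.Agent.MPbd47c3

open Finset Function

variable {V : Type} [Fintype V] [DecidableEq V]

/-- average over the cube -/
noncomputable def avg (f : (V → Bool) → ℝ) : ℝ := (∑ x, f x) / 2 ^ Fintype.card V

/-- `f` depends only on the coordinates in `A` -/
def DepOn (A : Finset V) (f : (V → Bool) → ℝ) : Prop :=
  ∀ x y, (∀ v ∈ A, x v = y v) → f x = f y

theorem DepOn.mono {A B : Finset V} {f : (V → Bool) → ℝ} (h : DepOn A f) (hAB : A ⊆ B) :
    DepOn B f := fun x y hxy => h x y fun v hv => hxy v (hAB hv)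

theorem DepOn.mul {A : Finset V} {f g : (V → Bool) → ℝ} (hf : DepOn A f) (hg : DepOn A g) :
    DepOn A (fun x => f x * g x) := fun x y hxy => by
  change f x * g x = f y * g y
  rw [hf x y hxy, hg x y hxy]

theorem DepOn.const {A : Finset V} (c : ℝ) : DepOn A (fun _ : V → Bool => c) :=
  fun _ _ _ => rfl

theorem DepOn.prod {A : Finset V} {ι : Type*} (s : Finset ι) {f : ι → (V → Bool) → ℝ}
    (hf : ∀ i ∈ s, DepOn A (f i)) : DepOn A (fun x => ∏ i ∈ s, f i x) :=
  fun x y hxy => prod_congr rfl fun i hi => hf i hi x y hxy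

theorem DepOn.update {A : Finset V} {f : (V → Bool) → ℝ} (h : DepOn A f) {z : V} (hz : z ∉ A)
    (x : V → Bool) (b : Bool) : f (update x z b) = f x :=
  h _ _ fun v hv => by
    rw [update_of_ne]
    intro hvz
    exact hz (hvz ▸ hv)

theorem avg_update (g : (V → Bool) → ℝ) (z : V) :
    avg g = avg (fun x => (g (update x z true) + g (update x z false)) / 2) := by
  unfold avg
  congr 1
  let fl : (V → Bool) → (V → Bool) := fun x => update x z (!x z)
  have hinv : Involutive fl := by
    intro x
    simp only [fl]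
    funext v
    by_cases hv : v = z
    · subst hv; simp
    · simp [update_of_ne hv]
  have h1 : ∑ x, g (fl x) = ∑ x, g x := Equiv.sum_comp hinv.toPerm g
  have h2 : ∀ x, g x + g (fl x) = g (update x z true) + g (update x z false) := by
    intro x
    simp only [fl]
    have hx : x = update x z (x z) := by simp
    cases h : x z
    · rw [h] at hx
      simp only [Bool.not_false]
      rw [← hx]
      ring
    · rw [h] at hx
      simp only [Bool.not_true]
      rw [← hx]
  rw [← sum_div]
  rw [← sum_congr rfl fun x _ => h2 x, sum_add_distrib, h1]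
  ring

theorem avg_mul {A : Finset V} {F G : (V → Bool) → ℝ} (hF : DepOn A F) (hG : DepOn Aᶜ G) :
    avg (fun x => F x * G x) = avg F * avg G := by
  unfold avg
  let sw : (V → Bool) × (V → Bool) → (V → Bool) × (V → Bool) := fun p =>
    (fun v => if v ∈ A then p.1 v else p.2 v, fun v => if v ∈ A then p.2 v else p.1 v)
  have hinv : Involutive sw := by
    rintro ⟨x, y⟩
    simp only [sw]
    ext v
    · simp only
      by_cases hv : v ∈ A <;> simp [hv]
    · simp only
      by_cases hv : v ∈ A <;> simp [hv]
  have h1 : ∑ p : (V → Bool) × (V → Bool), F (sw p).1 * G (sw p).2 =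
      ∑ p : (V → Bool) × (V → Bool), F p.1 * G p.2 :=
    Equiv.sum_comp hinv.toPerm (fun p => F p.1 * G p.2)
  have h2 : ∀ p : (V → Bool) × (V → Bool), F (sw p).1 * G (sw p).2 = F p.1 * G p.1 := by
    rintro ⟨x, y⟩
    simp only [sw]
    congr 1
    · apply hF
      intro v hv
      simp [hv]
    · apply hG
      intro v hv
      rw [mem_compl] at hv
      simp [hv]
  rw [sum_congr rfl fun p _ => h2 p] at h1
  rw [Fintype.sum_prod_type, Fintype.sum_prod_type] at h1
  simp only [sum_const, card_univ, Fintype.card_pi, Fintype.card_bool, prod_const] at h1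
  have h3 : ∑ x, ∑ y, F x * G y = (∑ x, F x) * ∑ y, G y := by
    rw [sum_mul_sum]
  rw [h3] at h1
  simp only [nsmul_eq_mul] at h1
  rw [← mul_sum] at h1
  push_cast at h1
  have h4 : (2 : ℝ) ^ Fintype.card V ≠ 0 := by positivity
  field_simp
  linarith

end Pool.Agent.MPbd47c3
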