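import Mathlib

/-!
# Codes of constant relative distance in logarithmically many dimensions
-/

namespace Pool.Agent.MPbd47c3

open Finset

/-- the `ℓ₁` norm -/
def l1 {κ : Type*} [Fintype κ] (f : κ → ℝ) : ℝ := ∑ c, |f c|

section l1

variable {κ : Type*} [Fintype κ]

theorem l1_nonneg (f : κ → ℝ) : 0 ≤ l1 f := sum_nonneg fun _ _ => abs_nonneg _

theorem l1_zero : l1 (0 : κ → ℝ) = 0 := by simp [l1]

theorem l1_add_le (f g : κ → ℝ) : l1 (f + g) ≤ l1 f + l1 g := by
  unfold l1
  rw [← sum_add_distrib]
  exact sum_le_sum fun c _ => abs_add_le _ _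

theorem l1_sub_le (f g : κ → ℝ) : l1 (f - g) ≤ l1 f + l1 g := by
  unfold l1
  rw [← sum_add_distrib]
  exact sum_le_sum fun c _ => by
    simpa using abs_sub (f c) (g c)

theorem l1_smul (a : ℝ) (f : κ → ℝ) : l1 (a • f) = |a| * l1 f := by
  unfold l1
  rw [mul_sum]
  exact sum_congr rfl fun c _ => by simp [abs_mul]

theorem l1_sub_comm (f g : κ → ℝ) : l1 (f - g) = l1 (g - f) := by
  unfold l1
  exact sum_congr rfl fun c _ => by simp [abs_sub_comm]

theorem l1_sub_triangle (f g h : κ → ℝ) : l1 (f - h) ≤ l1 (f - g) + l1 (g - h) := by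
  have := l1_add_le (f - g) (g - h)
  simpa using this

theorem l1_sum_le {ι : Type*} (s : Finset ι) (f : ι → κ → ℝ) :
    l1 (∑ i ∈ s, f i) ≤ ∑ i ∈ s, l1 (f i) := by
  classical
  induction s using Finset.induction_on with
  | empty => simp [l1_zero]
  | insert a s ha ih =>
    rw [sum_insert ha, sum_insert ha]
    exact (l1_add_le _ _).trans (by linarith)

theorem l1_ge_sub (f g : κ → ℝ) : l1 f - l1 g ≤ l1 (f + g) := by
  have h := l1_sub_le (f + g) g
  simp only [add_sub_cancel_right] at h
  linarith

end l1

/-- A family of nonnegative unit vectors of `ℓ₁` that stay apart under nonnegative scalings. -/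
structure IsCode {α κ : Type*} [Fintype κ] (E : α → κ → ℝ) : Prop where
  nonneg : ∀ a c, 0 ≤ E a c
  norm : ∀ a, l1 (E a) = 1
  apart : ∀ a b, a ≠ b → ∀ s t : ℝ, 0 ≤ s → 0 ≤ t → (s + t) / 2 ≤ l1 (s • E a - t • E b)

/-- Reed–Solomon codes with unary inner code. -/
theorem exists_code (α : Type) [Fintype α] :
    ∃ q : ℕ, q ≤ 4 * (Nat.log 2 (Fintype.card α) + 1) ∧
      ∃ E : α → (Fin q × Fin q) → ℝ, IsCode E := by
  classical
  set m : ℕ := Nat.log 2 (Fintype.card α) + 1 with hm
  obtain ⟨q, hq, hlt, hle⟩ := Nat.exists_prime_lt_and_le_two_mul (2 * m) (by omega)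
  have hcard : Fintype.card α < 2 ^ m := Nat.lt_pow_succ_log_self (by norm_num) _
  haveI : Fact q.Prime := ⟨hq⟩
  haveI : NeZero q := ⟨hq.ne_zero⟩
  have hq2 : 2 ≤ q := hq.two_le
  have hcard2 : Fintype.card α ≤ Fintype.card (Fin m → ZMod q) := by
    rw [Fintype.card_fun, ZMod.card, Fintype.card_fin]
    exact hcard.le.trans (Nat.pow_le_pow_left hq2 m)
  obtain ⟨ι⟩ := Function.Embedding.nonempty_of_card_le hcard2
  let P : α → Polynomial (ZMod q) := fun a => ∑ k : Fin m, Polynomial.monomial (k : ℕ) (ι a k)
  have hPcoeff : ∀ a (k : Fin m), (P a).coeff k = ι a k := by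
    intro a k
    simp only [P, Polynomial.finset_sum_coeff, Polynomial.coeff_monomial]
    rw [Finset.sum_eq_single k]
    · simp
    · intro b _ hb
      rw [if_neg]
      intro h
      exact hb (Fin.ext h)
    · simp
  have hPinj : ∀ a b, P a = P b → a = b := by
    intro a b h
    apply ι.injective
    funext k
    rw [← hPcoeff a k, ← hPcoeff b k, h]
  have hPdeg : ∀ a, (P a).degree < m := by
    intro a
    refine lt_of_le_of_lt (Polynomial.degree_sum_le _ _) ?_
    rw [Finset.sup_lt_iff]
    · intro k _
      exact lt_of_le_of_lt (Polynomial.degree_monomial_le _ _) (by exact_mod_cast k.2)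
    · exact WithBot.bot_lt_coe _
  -- number of agreements
  have hagree : ∀ a b, a ≠ b →
      (univ.filter fun x : ZMod q => (P a).eval x = (P b).eval x).card < m := by
    intro a b hab
    have hne : P a - P b ≠ 0 := fun h => hab (hPinj a b (sub_eq_zero.mp h))
    have hsub : (univ.filter fun x : ZMod q => (P a).eval x = (P b).eval x) ⊆
        (P a - P b).roots.toFinset := by
      intro x hx
      rw [mem_filter] at hx
      rw [Multiset.mem_toFinset, Polynomial.mem_roots hne]
      simp [Polynomial.IsRoot, hx.2]
    have h1 := card_le_card hsub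
    have h2 : (P a - P b).roots.toFinset.card ≤ (P a - P b).natDegree :=
      (Multiset.toFinset_card_le _).trans (Polynomial.card_roots' _)
    have h3 : (P a - P b).natDegree < m := by
      rw [Polynomial.natDegree_lt_iff_degree_lt hne]
      exact lt_of_le_of_lt (Polynomial.degree_sub_le _ _) (max_lt (hPdeg a) (hPdeg b))
    omega
  have hqpos : (0 : ℝ) < q := by exact_mod_cast hq.pos
  let e : Fin q ≃ ZMod q := (ZMod.finEquiv q).toEquiv
  -- the unary code of symbols
  let E' : α → (ZMod q × ZMod q) → ℝ := fun a c => if (P a).eval c.1 = c.2 then 1 / (q : ℝ) else 0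
  have hE' : IsCode E' := by
    refine ⟨?_, ?_, ?_⟩
    · intro a c
      simp only [E']
      split_ifs <;> positivity
    · intro a
      unfold l1
      rw [Fintype.sum_prod_type]
      have : ∀ x : ZMod q, ∑ y : ZMod q, |E' a (x, y)| = 1 / (q : ℝ) := by
        intro x
        rw [Finset.sum_eq_single ((P a).eval x)]
        · simp [E']
        · intro y _ hy
          simp only [E']
          rw [if_neg (Ne.symm hy), abs_zero]
        · simp
      rw [sum_congr rfl fun x _ => this x, sum_const, card_univ, ZMod.card]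
      rw [nsmul_eq_mul]
      field_simp
    · intro a b hab s t hs ht
      unfold l1
      rw [Fintype.sum_prod_type]
      have key : ∀ x : ZMod q, (if (P a).eval x = (P b).eval x then 0 else (s + t) / (q : ℝ)) ≤
          ∑ y : ZMod q, |(s • E' a - t • E' b) (x, y)| := by
        intro x
        split_ifs with h
        · exact sum_nonneg fun _ _ => abs_nonneg _
        · have hpair : ∑ y ∈ ({(P a).eval x, (P b).eval x} : Finset (ZMod q)),
              |(s • E' a - t • E' b) (x, y)| ≤ ∑ y : ZMod q, |(s • E' a - t • E' b) (x, y)| :=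
            sum_le_sum_of_subset_of_nonneg (subset_univ _) fun _ _ _ => abs_nonneg _
          refine le_trans (le_of_eq ?_) hpair
          rw [sum_pair h]
          simp only [Pi.sub_apply, Pi.smul_apply, smul_eq_mul, E', if_true]
          rw [if_neg (Ne.symm h), if_neg h]
          rw [mul_zero, sub_zero, mul_zero, zero_sub, abs_neg, abs_of_nonneg (by positivity),
            abs_of_nonneg (by positivity)]
          field_simp
      refine le_trans ?_ (sum_le_sum fun x _ => key x)
      rw [← sum_filter_add_sum_filter_not univ (fun x : ZMod q => (P a).eval x = (P b).eval x)]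
      have h1 : ∑ x ∈ univ.filter (fun x : ZMod q => (P a).eval x = (P b).eval x),
          (if (P a).eval x = (P b).eval x then 0 else (s + t) / (q : ℝ)) = 0 :=
        sum_eq_zero fun x hx => by rw [if_pos (mem_filter.mp hx).2]
      have h2 : ∑ x ∈ univ.filter (fun x : ZMod q => ¬ (P a).eval x = (P b).eval x),
          (if (P a).eval x = (P b).eval x then 0 else (s + t) / (q : ℝ)) =
          (univ.filter (fun x : ZMod q => ¬ (P a).eval x = (P b).eval x)).card *
            ((s + t) / (q : ℝ)) := by
        rw [← nsmul_eq_mul, ← sum_const]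
        exact sum_congr rfl fun x hx => by rw [if_neg (mem_filter.mp hx).2]
      rw [h1, h2, zero_add]
      have hc : q ≤ 2 * (univ.filter (fun x : ZMod q => ¬ (P a).eval x = (P b).eval x)).card := by
        have h3 := hagree a b hab
        have h4 := card_filter_add_card_filter_not (s := (univ : Finset (ZMod q)))
          (fun x : ZMod q => (P a).eval x = (P b).eval x)
        rw [card_univ, ZMod.card] at h4
        omega
      have hc' : (q : ℝ) ≤
          2 * ((univ.filter (fun x : ZMod q => ¬ (P a).eval x = (P b).eval x)).card : ℝ) := by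
        exact_mod_cast hc
      have : (s + t) / 2 = (q : ℝ) / 2 * ((s + t) / (q : ℝ)) := by field_simp
      rw [this]
      exact mul_le_mul_of_nonneg_right (by linarith) (by positivity)
  refine ⟨q, by omega, fun a c => E' a (e c.1, e c.2), ?_⟩
  have htrans : ∀ f : ZMod q × ZMod q → ℝ,
      l1 (fun c : Fin q × Fin q => f (e c.1, e c.2)) = l1 f := by
    intro f
    unfold l1
    exact Fintype.sum_equiv (Equiv.prodCongr e e) _ _ fun c => rfl
  refine ⟨fun a c => hE'.nonneg a _, fun a => ?_, fun a b hab s t hs ht => ?_⟩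
  · rw [htrans (E' a)]
    exact hE'.norm a
  · have := hE'.apart a b hab s t hs ht
    rw [← htrans] at this
    exact this

end Pool.Agent.MPbd47c3
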