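import Pool.Agent.MPbd47c3.Trunc

/-!
# From a forest of strong correlations to an embedding
-/

namespace Pool.Agent.MPbd47c3

open Finset

namespace Forest

variable {V : Type} [DecidableEq V] (F : Forest V)

/-- the relation of lying in the same tree -/
def treeSetoid : Setoid V where
  r x y := (F.anc x ∩ F.anc y).Nonempty
  iseqv := by
    refine ⟨fun x => ⟨x, mem_inter.mpr ⟨F.self_mem x, F.self_mem x⟩⟩, fun {x y} h => ?_, ?_⟩
    · rw [inter_comm]; exact h
    · rintro x y z ⟨a, ha⟩ ⟨b, hb⟩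
      rw [mem_inter] at ha hb
      rcases F.chain ha.2 hb.1 with h | h
      · exact ⟨a, mem_inter.mpr ⟨ha.1, F.anc_trans h hb.2⟩⟩
      · exact ⟨b, mem_inter.mpr ⟨F.anc_trans h ha.1, hb.2⟩⟩

/-- the label of the tree of `x` -/
noncomputable def tree (x : V) : V := (Quotient.mk F.treeSetoid x).out

theorem tree_eq_iff {x y : V} : F.tree x = F.tree y ↔ (F.anc x ∩ F.anc y).Nonempty := by
  unfold tree
  rw [Quotient.out_inj, Quotient.eq]
  rfl

end Forest

/-- index set of the embedding -/
abbrev Idx (V : Type) [Fintype V] (q₁ q₂ : ℕ) : Type :=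
  Unit ⊕ ((Fin q₁ × Fin q₁) ⊕ (Fin 8 × (Fin (Nat.log 2 (Fintype.card V) + 1) ×
    (Fin q₂ × Fin q₂))))

theorem l1_sumElim {κ₁ κ₂ : Type*} [Fintype κ₁] [Fintype κ₂] (f : κ₁ → ℝ) (g : κ₂ → ℝ) :
    l1 (Sum.elim f g) = l1 f + l1 g := by
  unfold l1
  rw [Fintype.sum_sum_type]
  rfl

theorem elim_sub {κ₁ κ₂ : Type*} (f f' : κ₁ → ℝ) (g g' : κ₂ → ℝ) :
    (Sum.elim f g - Sum.elim f' g' : κ₁ ⊕ κ₂ → ℝ) = Sum.elim (f - f') (g - g') := by
  funext c
  cases c <;> rfl

/-- The cone lemma. -/
theorem cone_bounds {κ : Type*} [Fintype κ] (g g' : κ → ℝ) {s s' κ₀ δ B c C : ℝ}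
    (hs : 0 ≤ s) (hs' : 0 ≤ s') (hδ : |s * s - s' * s'| ≤ δ) (hB : l1 g ≤ B) (hB' : l1 g' ≤ B)
    (hlow : c * κ₀ ≤ l1 (g - g') * (s * s')) (hup : l1 (g - g') * (s * s') ≤ C * κ₀) :
    c * κ₀ - B * δ ≤ l1 ((s * s) • g - (s' * s') • g') ∧
      l1 ((s * s) • g - (s' * s') • g') ≤ C * κ₀ + B * δ := by
  have hB0 : 0 ≤ B := (l1_nonneg g).trans hB
  have hδ0 : 0 ≤ δ := (abs_nonneg _).trans hδ
  have key : ∀ (g g' : κ → ℝ) (s s' : ℝ), 0 ≤ s → 0 ≤ s' → s ≤ s' → |s * s - s' * s'| ≤ δ →
      l1 g ≤ B → l1 g' ≤ B →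
      c * κ₀ ≤ l1 (g - g') * (s * s') → l1 (g - g') * (s * s') ≤ C * κ₀ →
      c * κ₀ - B * δ ≤ l1 ((s * s) • g - (s' * s') • g') ∧
      l1 ((s * s) • g - (s' * s') • g') ≤ C * κ₀ + B * δ := by
    intro g g' s s' hs hs' hle hδ hB hB' hlow hup
    have hn := l1_nonneg (g - g')
    constructor
    · have e : (s' * s') • (g - g') =
          ((s * s) • g - (s' * s') • g') + (s' * s' - s * s) • g := by
        rw [smul_sub, sub_smul]; abel
      have h1 := l1_add_le ((s * s) • g - (s' * s') • g') ((s' * s' - s * s) • g)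
      rw [← e, l1_smul, l1_smul, abs_of_nonneg (mul_nonneg hs' hs'), abs_sub_comm] at h1
      have h2 : |s * s - s' * s'| * l1 g ≤ δ * B := mul_le_mul hδ hB (l1_nonneg _) hδ0
      have h3 : l1 (g - g') * (s * s') ≤ s' * s' * l1 (g - g') := by
        have : s * s' ≤ s' * s' := mul_le_mul_of_nonneg_right hle hs'
        nlinarith
      linarith
    · have e : ((s * s) • g - (s' * s') • g') =
          (s * s) • (g - g') + (s * s - s' * s') • g' := by
        rw [smul_sub, sub_smul]; abel
      have h1 := l1_add_le ((s * s) • (g - g')) ((s * s - s' * s') • g')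
      rw [← e, l1_smul, l1_smul, abs_of_nonneg (mul_nonneg hs hs)] at h1
      have h2 : |s * s - s' * s'| * l1 g' ≤ δ * B := mul_le_mul hδ hB' (l1_nonneg _) hδ0
      have h3 : s * s * l1 (g - g') ≤ l1 (g - g') * (s * s') := by
        have : s * s ≤ s * s' := mul_le_mul_of_nonneg_left hle hs
        nlinarith
      linarith
  rcases le_total s s' with h | h
  · exact key g g' s s' hs hs' h hδ hB hB' hlow hup
  · rw [l1_sub_comm ((s * s) • g)]
    refine key g' g s' s hs' hs h (by rw [abs_sub_comm]; exact hδ) hB' hB ?_ ?_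
    · rw [l1_sub_comm, mul_comm s' s]; exact hlow
    · rw [l1_sub_comm, mul_comm s' s]; exact hup

theorem one_sub_exp_bounds {D : ℝ} (hD : 0 ≤ D) :
    min 1 D / 2 ≤ 1 - Real.exp (-D) ∧ 1 - Real.exp (-D) ≤ min 1 D := by
  constructor
  · rcases le_total 1 D with h | h
    · rw [min_eq_left h]
      have h1 : Real.exp (-D) ≤ Real.exp (-1) := Real.exp_le_exp.mpr (by linarith)
      have h2 : Real.exp (-1) ≤ 1 / 2 := by
        rw [Real.exp_neg]
        rw [one_div]
        apply inv_anti₀ (by norm_num)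
        have := Real.add_one_le_exp (1 : ℝ)
        linarith
      linarith
    · rw [min_eq_right h]
      -- `exp(-D) ≤ 1/(1+D) ≤ 1 - D/2`
      have h1 : 1 + D ≤ Real.exp D := by
        have := Real.add_one_le_exp D
        linarith
      have h2 : Real.exp (-D) * Real.exp D = 1 := by
        rw [← Real.exp_add]; simp
      have h3 : 0 < Real.exp (-D) := Real.exp_pos _
      have h4 : Real.exp (-D) * (1 + D) ≤ 1 :=
        (mul_le_mul_of_nonneg_left h1 h3.le).trans h2.le
      nlinarith [mul_nonneg hD (sub_nonneg.mpr h)]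
  · apply le_min
    · have := Real.exp_pos (-D)
      linarith
    · have := Real.add_one_le_exp (-D)
      linarith

/-- The embedding theorem for second order data organised by a forest. -/
theorem cone_embedding {V : Type} [DecidableEq V] [Fintype V] (F : Forest V) (w : V → ℝ)
    (hw : ∀ v, 0 ≤ w v) (σ : V → ℝ) (hσ : ∀ v, σ v = 1 ∨ σ v = -1)
    (p : V → ℝ) (hp0 : ∀ v, 0 ≤ p v) (hp1 : ∀ v, p v ≤ 1) (C : V → V → ℝ)
    (hdiag : ∀ v, C v v = p v * (1 - p v))
    (hcs : ∀ u v, C u v ^ 2 ≤ C u u * C v v)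
    (hd : ∀ u v, |p u - p v| ≤ (p u - p v) ^ 2 + C u u + C v v - 2 * C u v)
    (hsame : ∀ u v, (F.anc u ∩ F.anc v).Nonempty → C u v =
      σ u * σ v * Real.exp (-F.dist w u v) * (Real.sqrt (C u u) * Real.sqrt (C v v)))
    (hdiff : ∀ u v, ¬ (F.anc u ∩ F.anc v).Nonempty → C u v ^ 2 ≤ C u u * C v v / 2)
    {q₁ q₂ : ℕ} (E₁ : V × Bool → (Fin q₁ × Fin q₁) → ℝ) (hE₁ : IsCode E₁)
    (E₂ : V → (Fin q₂ × Fin q₂) → ℝ) (hE₂ : IsCode E₂) :
    ∃ f : V → Idx V q₁ q₂ → ℝ, ∀ u v,
      ((p u - p v) ^ 2 + C u u + C v v - 2 * C u v) / 264 ≤ l1 (f u - f v) ∧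
      l1 (f u - f v) ≤ 326 * ((p u - p v) ^ 2 + C u u + C v v - 2 * C u v) := by
  classical
  set s : V → ℝ := fun v => Real.sqrt (C v v) with hs
  have hCnn : ∀ v, 0 ≤ C v v := fun v => by
    rw [hdiag]; exact mul_nonneg (hp0 v) (by linarith [hp1 v])
  have hs0 : ∀ v, 0 ≤ s v := fun v => Real.sqrt_nonneg _
  have hss : ∀ v, s v * s v = C v v := fun v => Real.mul_self_sqrt (hCnn v)
  let lb : V → V × Bool := fun v => (F.tree v, decide (σ v = 1))
  let g : V → ((Fin q₁ × Fin q₁) ⊕ (Fin 8 × (Fin (Nat.log 2 (Fintype.card V) + 1) ×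
    (Fin q₂ × Fin q₂)))) → ℝ := fun v => Sum.elim (E₁ (lb v)) (F.emb w E₂ v)
  have hgB : ∀ v, l1 (g v) ≤ 65 := by
    intro v
    simp only [g]
    rw [l1_sumElim, hE₁.norm]
    have := F.l1_emb_le hw hE₂ v
    linarith
  have hg : ∀ u v, l1 (g u - g v) =
      l1 (E₁ (lb u) - E₁ (lb v)) + l1 (F.emb w E₂ u - F.emb w E₂ v) := by
    intro u v
    simp only [g]
    rw [elim_sub, l1_sumElim]
  -- the deficiency
  set κ : V → V → ℝ := fun u v => s u * s v - C u v with hκ
  have habs : ∀ u v, |C u v| ≤ s u * s v := by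
    intro u v
    apply abs_le_of_sq_le_sq _ (mul_nonneg (hs0 u) (hs0 v))
    have := hcs u v
    rw [← hss u, ← hss v] at this
    nlinarith
  have hT : ∀ u v, 1 / 2 * κ u v ≤ l1 (g u - g v) * (s u * s v) ∧
      l1 (g u - g v) * (s u * s v) ≤ 520 * κ u v := by
    intro u v
    have hsv : 0 ≤ s u * s v := mul_nonneg (hs0 u) (hs0 v)
    by_cases hlab : lb u = lb v
    · simp only [lb, Prod.mk.injEq] at hlab
      obtain ⟨h1, h2⟩ := hlab
      have htree := F.tree_eq_iff.mp h1
      have hσσ : σ u * σ v = 1 := by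
        rw [decide_eq_decide] at h2
        rcases hσ u with hu | hu
        · rw [hu, h2.mp hu]; norm_num
        · rcases hσ v with hv | hv
          · exfalso
            have := h2.mpr hv
            rw [this] at hu
            norm_num at hu
          · rw [hu, hv]; norm_num
      have hC := hsame u v htree
      rw [hσσ, one_mul] at hC
      have hκ' : κ u v = (1 - Real.exp (-F.dist w u v)) * (s u * s v) := by
        simp only [hκ]
        rw [hC]
        ring
      have hD := F.dist_nonneg hw u v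
      obtain ⟨b1, b2⟩ := one_sub_exp_bounds hD
      have hl := F.emb_lower hw hE₂ htree
      have hu := F.emb_upper hw hE₂ htree
      have e0 : l1 (E₁ (lb u) - E₁ (lb v)) = 0 := by
        have : lb u = lb v := by
          simp only [lb, Prod.mk.injEq]
          exact ⟨h1, h2⟩
        rw [this, sub_self, l1_zero]
      rw [hg, e0, zero_add, hκ']
      constructor
      · rw [← mul_assoc (1 / 2 : ℝ)]
        apply mul_le_mul_of_nonneg_right _ hsv
        linarith
      · rw [← mul_assoc (520 : ℝ)]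
        apply mul_le_mul_of_nonneg_right _ hsv
        linarith
    · have h1 := hE₁.apart _ _ hlab 1 1 zero_le_one zero_le_one
      rw [one_smul, one_smul] at h1
      have h2 := l1_nonneg (F.emb w E₂ u - F.emb w E₂ v)
      have h3 : l1 (g u - g v) ≤ 130 := by
        have h4 := l1_sub_le (g u) (g v)
        have h5 := hgB u
        have h6 := hgB v
        linarith
      have hC : C u v ≤ 3 / 4 * (s u * s v) := by
        by_cases htree : (F.anc u ∩ F.anc v).Nonempty
        · -- opposite signs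
          have hσσ : σ u * σ v = -1 := by
            have hne : decide (σ u = 1) ≠ decide (σ v = 1) := by
              intro h
              apply hlab
              simp only [lb, Prod.mk.injEq]
              exact ⟨F.tree_eq_iff.mpr htree, h⟩
            rw [Ne, decide_eq_decide] at hne
            rcases hσ u with hu | hu
            · rcases hσ v with hv | hv
              · exact absurd (by simp [hu, hv]) hne
              · rw [hu, hv]; norm_num
            · rcases hσ v with hv | hv
              · rw [hu, hv]; norm_num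
              · exfalso
                apply hne
                rw [hu, hv]
          rw [hsame u v htree, hσσ]
          have := mul_nonneg (Real.exp_pos (-F.dist w u v)).le hsv
          simp only [hs] at hsv this ⊢
          nlinarith
        · have h5 := hdiff u v htree
          rw [← hss u, ← hss v] at h5
          have h7 : C u v ^ 2 ≤ (3 / 4 * (s u * s v)) ^ 2 := by
            nlinarith [sq_nonneg (s u * s v)]
          exact (le_abs_self _).trans (abs_le_of_sq_le_sq h7 (by linarith))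
      have h6 := habs u v
      rw [abs_le] at h6
      rw [hg] at h3 ⊢
      simp only [hκ]
      constructor
      · have : 1 ≤ l1 (E₁ (lb u) - E₁ (lb v)) + l1 (F.emb w E₂ u - F.emb w E₂ v) := by linarith
        nlinarith
      · nlinarith
  refine ⟨fun v => Sum.elim (fun _ : Unit => p v) ((s v * s v) • g v), fun u v => ?_⟩
  have hδ : |s u * s u - s v * s v| ≤ |p u - p v| := by
    rw [hss, hss, hdiag, hdiag]
    rw [show p u * (1 - p u) - p v * (1 - p v) = (p u - p v) * (1 - p u - p v) by ring, abs_mul]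
    apply mul_le_of_le_one_right (abs_nonneg _)
    rw [abs_le]
    constructor <;> linarith [hp0 u, hp0 v, hp1 u, hp1 v]
  obtain ⟨hl, hu⟩ := cone_bounds (g u) (g v) (hs0 u) (hs0 v) hδ (hgB u) (hgB v)
    (hT u v).1 (hT u v).2
  rw [elim_sub, l1_sumElim]
  have e1 : l1 ((fun _ : Unit => p u) - fun _ => p v) = |p u - p v| := by
    simp [l1]
  rw [e1]
  have hdd := hd u v
  have hsq : (s u - s v) ^ 2 ≤ |p u - p v| := by
    refine le_trans ?_ hδ
    rw [show s u * s u - s v * s v = (s u - s v) * (s u + s v) by ring, abs_mul, sq,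
      ← abs_mul_abs_self (s u - s v)]
    apply mul_le_mul_of_nonneg_left _ (abs_nonneg _)
    have hpos : 0 ≤ s u + s v := add_nonneg (hs0 u) (hs0 v)
    rw [abs_of_nonneg hpos, abs_le]
    constructor <;> linarith [hs0 u, hs0 v]
  have hsq2 : (p u - p v) ^ 2 ≤ |p u - p v| := by
    rw [sq, ← abs_mul_abs_self]
    apply mul_le_of_le_one_right (abs_nonneg _)
    rw [abs_le]
    constructor <;> linarith [hp0 u, hp0 v, hp1 u, hp1 v]
  have ed : (p u - p v) ^ 2 + C u u + C v v - 2 * C u v =
      (p u - p v) ^ 2 + (s u - s v) ^ 2 + 2 * κ u v := by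
    simp only [hκ]
    rw [← hss u, ← hss v]
    ring
  have hκ0 : 0 ≤ κ u v := by
    have := habs u v
    rw [abs_le] at this
    simp only [hκ]
    linarith
  rw [ed] at hdd ⊢
  have h0 := l1_nonneg ((s u * s u) • g u - (s v * s v) • g v)
  have h1 := sq_nonneg (p u - p v)
  have h2 := sq_nonneg (s u - s v)
  constructor
  · linarith
  · linarith

end Pool.Agent.MPbd47c3
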