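import Pool.Agent.MPbd47c3.Code

/-!
# Embedding rooted forests in `ℓ₁` of polylogarithmic dimension
-/

namespace Pool.Agent.MPbd47c3

open Finset

/-- A rooted forest, given by a parent map; `τ` decreases along parents. -/
structure Forest (V : Type) where
  par : V → Option V
  τ : V → ℕ
  lt : ∀ v p, par v = some p → τ p < τ v

namespace Forest

/-- the set of ancestors of `v`, including `v` -/
def anc {V : Type} [DecidableEq V] (F : Forest V) (v : V) : Finset V :=
  match h : F.par v with
  | none => {v}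
  | some p => insert v (anc F p)
termination_by F.τ v
decreasing_by exact F.lt v p h

variable {V : Type} [DecidableEq V] (F : Forest V)

theorem anc_none {v : V} (h : F.par v = none) : F.anc v = {v} := by
  rw [anc]
  split
  · rfl
  · rename_i p hp
    rw [h] at hp
    cases hp

theorem anc_some {v p : V} (h : F.par v = some p) : F.anc v = insert v (F.anc p) := by
  rw [anc]
  split
  · rename_i hp
    rw [h] at hp
    cases hp
  · rename_i p' hp
    rw [h] at hp
    cases hp
    rfl

theorem self_mem (v : V) : v ∈ F.anc v := by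
  cases h : F.par v with
  | none => rw [F.anc_none h]; simp
  | some p => rw [F.anc_some h]; simp

/-- induction along parents -/
theorem induct {motive : V → Prop} (v : V)
    (hnone : ∀ v, F.par v = none → motive v)
    (hsome : ∀ v p, F.par v = some p → motive p → motive v) : motive v := by
  have : ∀ n, ∀ v, F.τ v = n → motive v := by
    intro n
    induction n using Nat.strong_induction_on with
    | _ n ih =>
      intro v hv
      cases h : F.par v with
      | none => exact hnone v h
      | some p => exact hsome v p h (ih (F.τ p) (hv ▸ F.lt v p h) p rfl)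
  exact this _ v rfl

theorem mem_le {x v : V} (h : x ∈ F.anc v) : x = v ∨ F.τ x < F.τ v := by
  revert h
  refine F.induct (motive := fun v => x ∈ F.anc v → x = v ∨ F.τ x < F.τ v) v ?_ ?_
  · intro v hv h
    rw [F.anc_none hv] at h
    left; simpa using h
  · intro v p hv ih h
    rw [F.anc_some hv, mem_insert] at h
    rcases h with h | h
    · left; exact h
    · right
      have := F.lt v p hv
      rcases ih h with h' | h'
      · rw [h']; exact this
      · omega

theorem anc_subset {x v : V} (h : x ∈ F.anc v) : F.anc x ⊆ F.anc v := by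
  revert h
  refine F.induct (motive := fun v => x ∈ F.anc v → F.anc x ⊆ F.anc v) v ?_ ?_
  · intro v hv h
    rw [F.anc_none hv] at h
    have : x = v := by simpa using h
    rw [this]
  · intro v p hv ih h
    rw [F.anc_some hv, mem_insert] at h
    rcases h with h | h
    · rw [h]
    · rw [F.anc_some hv]
      exact (ih h).trans (subset_insert _ _)

theorem anc_trans {x y z : V} (h : x ∈ F.anc y) (h' : y ∈ F.anc z) : x ∈ F.anc z :=
  F.anc_subset h' h

theorem anc_antisymm {x y : V} (h : x ∈ F.anc y) (h' : y ∈ F.anc x) : x = y := by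
  rcases F.mem_le h with h1 | h1
  · exact h1
  · rcases F.mem_le h' with h2 | h2
    · exact h2.symm
    · omega

theorem chain {x y v : V} (hx : x ∈ F.anc v) (hy : y ∈ F.anc v) :
    x ∈ F.anc y ∨ y ∈ F.anc x := by
  revert hx hy
  refine F.induct (motive := fun v => x ∈ F.anc v → y ∈ F.anc v → x ∈ F.anc y ∨ y ∈ F.anc x)
    v ?_ ?_
  · intro v hv hx hy
    rw [F.anc_none hv] at hx hy
    have h1 : x = v := by simpa using hx
    have h2 : y = v := by simpa using hy
    left; rw [h1, h2]; exact F.self_mem v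
  · intro v p hv ih hx hy
    have hx' := hx
    have hy' := hy
    rw [F.anc_some hv, mem_insert] at hx hy
    rcases hx with hx | hx
    · right; rw [hx]; exact hy'
    · rcases hy with hy | hy
      · left; rw [hy]; exact hx'
      · exact ih hx hy

/-- lowest common ancestors -/
theorem exists_lca {u v : V} (h : (F.anc u ∩ F.anc v).Nonempty) :
    ∃ w, F.anc w = F.anc u ∩ F.anc v := by
  obtain ⟨w, hw, hmax⟩ := exists_max_image _ F.τ h
  rw [mem_inter] at hw
  refine ⟨w, ?_⟩
  ext x
  constructor
  · intro hx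
    exact mem_inter.mpr ⟨F.anc_trans hx hw.1, F.anc_trans hx hw.2⟩
  · intro hx
    have h1 := hmax x hx
    rw [mem_inter] at hx
    rcases F.chain hx.1 hw.1 with h2 | h2
    · exact h2
    · rcases F.mem_le h2 with h3 | h3
      · rw [h3]; exact F.self_mem x
      · omega

variable [Fintype V]

/-- the descendants of `v`, including `v` -/
def desc (v : V) : Finset V := univ.filter fun u => v ∈ F.anc u

theorem mem_desc {u v : V} : u ∈ F.desc v ↔ v ∈ F.anc u := by simp [desc]

theorem desc_subset {x y : V} (h : x ∈ F.anc y) : F.desc y ⊆ F.desc x := by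
  intro u hu
  rw [mem_desc] at hu ⊢
  exact F.anc_trans h hu

theorem desc_disjoint {x y : V} (h : x ∉ F.anc y) (h' : y ∉ F.anc x) :
    Disjoint (F.desc x) (F.desc y) := by
  rw [disjoint_left]
  intro u hx hy
  rw [mem_desc] at hx hy
  rcases F.chain hx hy with h1 | h1
  · exact h h1
  · exact h' h1

/-- the rank of a vertex: the logarithm of the number of its descendants -/
def rank (v : V) : ℕ := Nat.log 2 (F.desc v).card

theorem desc_card_pos (v : V) : 0 < (F.desc v).card :=
  card_pos.mpr ⟨v, F.mem_desc.mpr (F.self_mem v)⟩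

theorem rank_lt (v : V) : F.rank v < Nat.log 2 (Fintype.card V) + 1 := by
  have : (F.desc v).card ≤ Fintype.card V := card_le_univ _
  exact Nat.lt_succ_of_le (Nat.log_mono_right this)

theorem comparable_of_rank {t x y : V} (hx : t ∈ F.anc x) (hy : t ∈ F.anc y)
    (h1 : F.rank x = F.rank t) (h2 : F.rank y = F.rank t) : x ∈ F.anc y ∨ y ∈ F.anc x := by
  by_contra hcon
  rw [not_or] at hcon
  have hdis := F.desc_disjoint hcon.1 hcon.2
  have hsub : F.desc x ∪ F.desc y ⊆ F.desc t := union_subset (F.desc_subset hx) (F.desc_subset hy)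
  have hcard := card_le_card hsub
  rw [card_union_of_disjoint hdis] at hcard
  have hx' : 2 ^ F.rank t ≤ (F.desc x).card := by
    rw [← h1]; exact Nat.pow_log_le_self 2 (F.desc_card_pos x).ne'
  have hy' : 2 ^ F.rank t ≤ (F.desc y).card := by
    rw [← h2]; exact Nat.pow_log_le_self 2 (F.desc_card_pos y).ne'
  have : (F.desc t).card < 2 ^ (F.rank t + 1) := Nat.lt_pow_succ_log_self (by norm_num) _
  rw [pow_succ] at this
  omega

/-- the relation of lying on the same vertical run -/
def runSetoid : Setoid V where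
  r x y := F.rank x = F.rank y ∧ (x ∈ F.anc y ∨ y ∈ F.anc x)
  iseqv := by
    refine ⟨fun x => ⟨rfl, Or.inl (F.self_mem x)⟩, fun h => ⟨h.1.symm, h.2.symm⟩, ?_⟩
    rintro x y z ⟨h1, h2⟩ ⟨h3, h4⟩
    refine ⟨h1.trans h3, ?_⟩
    rcases h2 with h2 | h2
    · rcases h4 with h4 | h4
      · left; exact F.anc_trans h2 h4
      · exact F.chain h2 h4
    · rcases h4 with h4 | h4
      · exact F.comparable_of_rank h2 h4 h1 h3.symm
      · right; exact F.anc_trans h4 h2

/-- the label of the run of `x` -/
noncomputable def lab (x : V) : V := (Quotient.mk F.runSetoid x).out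

theorem lab_eq_iff {x y : V} :
    F.lab x = F.lab y ↔ F.rank x = F.rank y ∧ (x ∈ F.anc y ∨ y ∈ F.anc x) := by
  unfold lab
  rw [Quotient.out_inj, Quotient.eq]
  rfl

variable {κ : Type} [Fintype κ] (E : V → κ → ℝ)

/-- the vector attached to the edge above `x` -/
noncomputable def vec (x : V) : (Fin (Nat.log 2 (Fintype.card V) + 1) × κ) → ℝ :=
  fun c => if F.rank x = (c.1 : ℕ) then E (F.lab x) c.2 else 0

variable {E}

theorem l1_vec (hE : IsCode E) (x : V) : l1 (F.vec E x) = 1 := by
  unfold l1
  rw [Fintype.sum_prod_type, Finset.sum_eq_single (⟨F.rank x, F.rank_lt x⟩ : Fin _)]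
  · simp only [vec, if_true]
    exact hE.norm _
  · intro r _ hr
    apply sum_eq_zero
    intro c _
    simp only [vec]
    rw [if_neg, abs_zero]
    intro h
    apply hr
    ext
    exact h.symm
  · simp

theorem l1_sum_vec_le (hE : IsCode E) (A : Finset V) (α : V → ℝ) (hα : ∀ x ∈ A, 0 ≤ α x) :
    l1 (∑ x ∈ A, α x • F.vec E x) ≤ ∑ x ∈ A, α x := by
  refine (l1_sum_le _ _).trans (sum_le_sum fun x hx => ?_)
  rw [l1_smul, F.l1_vec hE, mul_one, abs_of_nonneg (hα x hx)]

/-- The basic lower bound. -/
theorem lower (hE : IsCode E) {u v : V} {A B : Finset V} (hA : A ⊆ F.anc u) (hB : B ⊆ F.anc v)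
    (hAv : ∀ x ∈ A, x ∉ F.anc v) (hBu : ∀ x ∈ B, x ∉ F.anc u) (α β : V → ℝ)
    (hα : ∀ x ∈ A, 0 ≤ α x) (hβ : ∀ x ∈ B, 0 ≤ β x) :
    (∑ x ∈ A, α x + ∑ x ∈ B, β x) / 2 ≤
      l1 (∑ x ∈ A, α x • F.vec E x - ∑ x ∈ B, β x • F.vec E x) := by
  -- decomposition by rank
  have hsplit : ∀ (S : Finset V) (γ : V → ℝ), ∑ x ∈ S, γ x =
      ∑ r : Fin (Nat.log 2 (Fintype.card V) + 1), ∑ x ∈ S.filter (fun x => F.rank x = (r : ℕ)),
        γ x := by
    intro S γ
    rw [← sum_fiberwise_of_maps_to (s := S) (t := (univ : Finset (Fin _)))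
      (g := fun x => (⟨F.rank x, F.rank_lt x⟩ : Fin (Nat.log 2 (Fintype.card V) + 1)))
      (fun _ _ => mem_univ _)]
    refine sum_congr rfl fun r _ => sum_congr ?_ fun _ _ => rfl
    ext x
    simp only [mem_filter, Fin.ext_iff]
  have hblock : ∀ (S : Finset V) (w : V), S ⊆ F.anc w → ∀ (γ : V → ℝ)
      (r : Fin (Nat.log 2 (Fintype.card V) + 1)) (x₀ : V),
      x₀ ∈ S.filter (fun x => F.rank x = (r : ℕ)) → ∀ c : κ,
      (∑ x ∈ S, γ x • F.vec E x) (r, c) =
        (∑ x ∈ S.filter (fun x => F.rank x = (r : ℕ)), γ x) * E (F.lab x₀) c := by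
    intro S w hS γ r x₀ hx₀ c
    rw [Finset.sum_apply, sum_mul, sum_filter]
    refine sum_congr rfl fun x hx => ?_
    simp only [Pi.smul_apply, smul_eq_mul, vec]
    split_ifs with h
    · have : F.lab x = F.lab x₀ := by
        rw [F.lab_eq_iff]
        rw [mem_filter] at hx₀
        exact ⟨h.trans hx₀.2.symm, F.chain (hS hx) (hS hx₀.1)⟩
      rw [this]
    · simp
  have hzero : ∀ (S : Finset V) (γ : V → ℝ) (r : Fin (Nat.log 2 (Fintype.card V) + 1)),
      S.filter (fun x => F.rank x = (r : ℕ)) = ∅ → ∀ c : κ,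
      (∑ x ∈ S, γ x • F.vec E x) (r, c) = 0 := by
    intro S γ r hr c
    rw [Finset.sum_apply]
    refine sum_eq_zero fun x hx => ?_
    simp only [Pi.smul_apply, smul_eq_mul, vec]
    rw [if_neg, mul_zero]
    intro h
    have : x ∈ S.filter (fun x => F.rank x = (r : ℕ)) := mem_filter.mpr ⟨hx, h⟩
    rw [hr] at this
    simp at this
  unfold l1
  rw [Fintype.sum_prod_type, hsplit A α, hsplit B β, ← sum_add_distrib, sum_div]
  refine sum_le_sum fun r _ => ?_
  set a := ∑ x ∈ A.filter (fun x => F.rank x = (r : ℕ)), α x with ha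
  set b := ∑ x ∈ B.filter (fun x => F.rank x = (r : ℕ)), β x with hb
  have ha0 : 0 ≤ a := sum_nonneg fun x hx => hα x (mem_filter.mp hx).1
  have hb0 : 0 ≤ b := sum_nonneg fun x hx => hβ x (mem_filter.mp hx).1
  rcases (A.filter (fun x => F.rank x = (r : ℕ))).eq_empty_or_nonempty with hAe | ⟨x, hx⟩
  · have ha' : a = 0 := by rw [ha, hAe, sum_empty]
    rcases (B.filter (fun x => F.rank x = (r : ℕ))).eq_empty_or_nonempty with hBe | ⟨y, hy⟩
    · have hb' : b = 0 := by rw [hb, hBe, sum_empty]
      rw [ha', hb', add_zero, zero_div]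
      exact sum_nonneg fun _ _ => abs_nonneg _
    · have hn := hE.norm (F.lab y)
      unfold l1 at hn
      have : ∑ c : κ, |(∑ x ∈ A, α x • F.vec E x - ∑ x ∈ B, β x • F.vec E x) (r, c)| = b := by
        rw [← mul_one b, ← hn, mul_sum]
        refine sum_congr rfl fun c _ => ?_
        rw [Pi.sub_apply, hzero A α r hAe c, hblock B v hB β r y hy c, zero_sub, abs_neg, abs_mul,
          abs_of_nonneg hb0]
      rw [this, ha']
      linarith
  · rcases (B.filter (fun x => F.rank x = (r : ℕ))).eq_empty_or_nonempty with hBe | ⟨y, hy⟩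
    · have hb' : b = 0 := by rw [hb, hBe, sum_empty]
      have hn := hE.norm (F.lab x)
      unfold l1 at hn
      have : ∑ c : κ, |(∑ x ∈ A, α x • F.vec E x - ∑ x ∈ B, β x • F.vec E x) (r, c)| = a := by
        rw [← mul_one a, ← hn, mul_sum]
        refine sum_congr rfl fun c _ => ?_
        rw [Pi.sub_apply, hzero B β r hBe c, hblock A u hA α r x hx c, sub_zero, abs_mul,
          abs_of_nonneg ha0]
      rw [this, hb']
      linarith
    · have hne : F.lab x ≠ F.lab y := by
        intro h
        rw [F.lab_eq_iff] at h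
        rw [mem_filter] at hx hy
        rcases h.2 with h1 | h1
        · exact hAv x hx.1 (F.anc_trans h1 (hB hy.1))
        · exact hBu y hy.1 (F.anc_trans h1 (hA hx.1))
      have h := hE.apart _ _ hne a b ha0 hb0
      refine h.trans (le_of_eq ?_)
      unfold l1
      refine sum_congr rfl fun c _ => ?_
      have e1 := hblock A u hA α r x hx c
      have e2 := hblock B v hB β r y hy c
      rw [← ha] at e1
      rw [← hb] at e2
      simp only [Pi.sub_apply, e1, e2]
      simp

end Forest

end Pool.Agent.MPbd47c3
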