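import Pool.Agent.MPbd47c3.Cone

/-!
# The forest of strong correlations
-/

namespace Pool.Agent.MPbd47c3

open Finset

/-- Covariances of a polytree network along a topological order `τ`.  `pa u z`: `u` is a parent of
`z`.  `comp z u i`: `i` is connected to `u` among the vertices before `z`. -/
structure CovNet {V : Type} (C : V → V → ℝ) (τ : V → ℕ) (pa : V → V → Prop)
    (comp : V → V → V → Prop) : Prop where
  symm : ∀ i j, C i j = C j i
  diag_nonneg : ∀ i, 0 ≤ C i i
  cs : ∀ i j, C i j ^ 2 ≤ C i i * C j j
  bessel : ∀ z u u', C u u' = 0 → ∀ a b : ℝ,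
    0 ≤ C z z - 2 * a * C u z - 2 * b * C u' z + a ^ 2 * C u u + b ^ 2 * C u' u'
  inj : Function.Injective τ
  lt : ∀ u z, pa u z → τ u < τ z
  self : ∀ u z, pa u z → comp z u u
  closed : ∀ u z i j, comp z u i → τ j < τ z → (pa i j ∨ pa j i) → comp z u j
  recur : ∀ u z, pa u z → ∃ β : ℝ, ∀ i, comp z u i → C i z = β * C i u
  zero : ∀ z i, τ i < τ z → (∀ u, pa u z → ¬ comp z u i) → C i z = 0
  parents : ∀ u u' z, pa u z → pa u' z → u ≠ u' → C u u' = 0

namespace CovNet

variable {V : Type} {C : V → V → ℝ} {τ : V → ℕ} {pa : V → V → Prop}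
  {comp : V → V → V → Prop} (N : CovNet C τ pa comp)

/-- strongly correlated parent -/
def Strong (C : V → V → ℝ) (pa : V → V → Prop) (u z : V) : Prop :=
  pa u z ∧ C u u * C z z / 2 < C u z ^ 2

include N in
theorem strong_pos {u z : V} (h : Strong C pa u z) : 0 < C u u ∧ 0 < C z z := by
  have h1 := N.cs u z
  have h2 := N.diag_nonneg u
  have h3 := N.diag_nonneg z
  have h4 := h.2
  constructor
  · rcases h2.lt_or_eq with h5 | h5
    · exact h5
    · rw [← h5, zero_mul] at h1 h4
      linarith
  · rcases h3.lt_or_eq with h5 | h5
    · exact h5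
    · rw [← h5, mul_zero] at h1 h4
      linarith

include N in
theorem strong_unique {u u' z : V} (h : Strong C pa u z) (h' : Strong C pa u' z) : u = u' := by
  by_contra hne
  have h0 := N.parents u u' z h.1 h'.1 hne
  have h1 := N.bessel z u u' h0 (C u z / C u u) (C u' z / C u' u')
  obtain ⟨hu, hz⟩ := N.strong_pos h
  obtain ⟨hu', _⟩ := N.strong_pos h'
  have e1 : (C u z / C u u) * C u z = C u z ^ 2 / C u u := by field_simp
  have e2 : (C u' z / C u' u') * C u' z = C u' z ^ 2 / C u' u' := by field_simp
  have e3 : (C u z / C u u) ^ 2 * C u u = C u z ^ 2 / C u u := by field_simp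
  have e4 : (C u' z / C u' u') ^ 2 * C u' u' = C u' z ^ 2 / C u' u' := by field_simp
  have h2 : C z z / 2 < C u z ^ 2 / C u u := by
    rw [lt_div_iff₀ hu]
    have := h.2
    linarith
  have h3 : C z z / 2 < C u' z ^ 2 / C u' u' := by
    rw [lt_div_iff₀ hu']
    have := h'.2
    linarith
  nlinarith

open Classical in
/-- the strong parent -/
noncomputable def par (C : V → V → ℝ) (pa : V → V → Prop) (z : V) : Option V :=
  if h : ∃ u, Strong C pa u z then some h.choose else none

theorem par_some {z p : V} (h : par C pa z = some p) : Strong C pa p z := by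
  unfold par at h
  split_ifs at h with h1
  cases h
  exact h1.choose_spec

include N in
theorem par_eq_some {u z : V} (h : Strong C pa u z) : par C pa z = some u := by
  unfold par
  have h1 : ∃ u, Strong C pa u z := ⟨u, h⟩
  rw [dif_pos h1]
  rw [N.strong_unique h1.choose_spec h]

/-- the forest of strong parents -/
noncomputable def forest : Forest V where
  par := par C pa
  τ := τ
  lt v p h := N.lt p v (par_some h).1

theorem forest_par (v : V) : N.forest.par v = par C pa v := rfl

theorem forest_tau (v : V) : N.forest.τ v = τ v := rfl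

/-- weight of the edge above `z` -/
noncomputable def wt (C : V → V → ℝ) (pa : V → V → Prop) (z : V) : ℝ :=
  match par C pa z with
  | none => 0
  | some p => Real.log (Real.sqrt (C p p) * Real.sqrt (C z z) / |C p z|)

open Classical in
/-- sign of the edge above `z` -/
noncomputable def eps (C : V → V → ℝ) (pa : V → V → Prop) (z : V) : ℝ :=
  match par C pa z with
  | none => 1
  | some p => if 0 ≤ C p z then 1 else -1

theorem eps_sq (z : V) : eps C pa z = 1 ∨ eps C pa z = -1 := by
  unfold eps
  split
  · left; rfl
  · split_ifs
    · left; rfl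
    · right; rfl

include N in
theorem abs_le_sqrt (i j : V) : |C i j| ≤ Real.sqrt (C i i) * Real.sqrt (C j j) := by
  rw [← Real.sqrt_mul (N.diag_nonneg i)]
  exact Real.abs_le_sqrt (N.cs i j)

include N in
theorem wt_nonneg (z : V) : 0 ≤ wt C pa z := by
  unfold wt
  cases h : par C pa z with
  | none => exact le_rfl
  | some p =>
    have hs := par_some h
    obtain ⟨hp, hz⟩ := N.strong_pos hs
    apply Real.log_nonneg
    have hC : 0 < |C p z| := by
      rw [abs_pos]
      intro h0
      have := hs.2
      rw [h0] at this
      have : 0 < C p p * C z z := mul_pos hp hz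
      nlinarith
    rw [one_le_div hC]
    exact N.abs_le_sqrt p z

include N in
theorem edge_eq {z p : V} (h : par C pa z = some p) :
    C p z = eps C pa z * Real.exp (-wt C pa z) * (Real.sqrt (C p p) * Real.sqrt (C z z)) := by
  have hs := par_some h
  obtain ⟨hp, hz⟩ := N.strong_pos hs
  have hC : 0 < |C p z| := by
    rw [abs_pos]
    intro h0
    have := hs.2
    rw [h0] at this
    have : 0 < C p p * C z z := mul_pos hp hz
    nlinarith
  have hsp : 0 < Real.sqrt (C p p) := Real.sqrt_pos.mpr hp
  have hsz : 0 < Real.sqrt (C z z) := Real.sqrt_pos.mpr hz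
  have e1 : Real.exp (-wt C pa z) = |C p z| / (Real.sqrt (C p p) * Real.sqrt (C z z)) := by
    unfold wt
    rw [h]
    simp only
    rw [Real.exp_neg, Real.exp_log (div_pos (mul_pos hsp hsz) hC), inv_div]
  have e2 : eps C pa z * |C p z| = C p z := by
    unfold eps
    rw [h]
    simp only
    split_ifs with h0
    · rw [abs_of_nonneg h0, one_mul]
    · rw [abs_of_neg (not_le.mp h0)]
      ring
  rw [e1]
  have : eps C pa z * (|C p z| / (Real.sqrt (C p p) * Real.sqrt (C z z))) *
      (Real.sqrt (C p p) * Real.sqrt (C z z)) = eps C pa z * |C p z| := by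
    field_simp
  rw [this, e2]

variable [DecidableEq V]

/-- the gauge -/
noncomputable def sgn (z : V) : ℝ := ∏ x ∈ N.forest.anc z, eps C pa x

theorem sgn_sq (z : V) : N.sgn z = 1 ∨ N.sgn z = -1 := by
  unfold sgn
  induction N.forest.anc z using Finset.induction_on with
  | empty => left; simp
  | insert a s ha ih =>
    rw [prod_insert ha]
    rcases eps_sq (C := C) (pa := pa) a with h | h <;> rcases ih with h' | h' <;> rw [h, h'] <;>
      norm_num

theorem sgn_mul_self (z : V) : N.sgn z * N.sgn z = 1 := by
  rcases N.sgn_sq z with h | h <;> rw [h] <;> norm_num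

theorem sgn_some {z p : V} (h : par C pa z = some p) : N.sgn z = eps C pa z * N.sgn p := by
  unfold sgn
  have h' : N.forest.par z = some p := h
  rw [N.forest.anc_some h', prod_insert (N.forest.not_mem_anc_par h')]

theorem dist_step {z p i : V} (h : par C pa z = some p) (hi : τ i < τ z) :
    N.forest.dist (wt C pa) i z = N.forest.dist (wt C pa) i p + wt C pa z := by
  have h' : N.forest.par z = some p := h
  have hz : z ∉ N.forest.anc i := by
    intro hz
    rcases N.forest.mem_le hz with h1 | h1
    · rw [h1] at hi; omega
    · rw [N.forest_tau, N.forest_tau] at h1; omega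
  have hzp := N.forest.not_mem_anc_par h'
  unfold Forest.dist
  have e1 : N.forest.anc i \ N.forest.anc z = N.forest.anc i \ N.forest.anc p := by
    ext y
    rw [mem_sdiff, mem_sdiff, N.forest.anc_some h', mem_insert]
    constructor
    · rintro ⟨h1, h2⟩
      exact ⟨h1, fun h3 => h2 (Or.inr h3)⟩
    · rintro ⟨h1, h2⟩
      refine ⟨h1, fun h3 => ?_⟩
      rcases h3 with h3 | h3
      · rw [h3] at h1; exact hz h1
      · exact h2 h3
  have e2 : N.forest.anc z \ N.forest.anc i = insert z (N.forest.anc p \ N.forest.anc i) := by
    ext y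
    rw [mem_sdiff, mem_insert, mem_sdiff, N.forest.anc_some h', mem_insert]
    constructor
    · rintro ⟨h1 | h1, h2⟩
      · exact Or.inl h1
      · exact Or.inr ⟨h1, h2⟩
    · rintro (h1 | h1)
      · exact ⟨Or.inl h1, by rw [h1]; exact hz⟩
      · exact ⟨Or.inr h1.1, h1.2⟩
  rw [e1, e2, sum_insert (by rw [mem_sdiff]; exact fun h => hzp h.1)]
  ring

theorem dist_self (i : V) : N.forest.dist (wt C pa) i i = 0 := by
  unfold Forest.dist
  simp

theorem dist_comm (i j : V) :
    N.forest.dist (wt C pa) i j = N.forest.dist (wt C pa) j i := by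
  unfold Forest.dist
  rw [add_comm]

/-- a strong tree before `z` lies in one component -/
theorem comp_of_tree {z p i : V} (hp : pa p z) (hi : τ i < τ z)
    (h : (N.forest.anc i ∩ N.forest.anc p).Nonempty) : comp z p i := by
  obtain ⟨x, hx⟩ := h
  rw [mem_inter] at hx
  -- ancestors of `p` are in the component
  have h1 : ∀ v, τ v < τ z → comp z p v → ∀ x ∈ N.forest.anc v, comp z p x := by
    intro v
    refine N.forest.induct (motive := fun v => τ v < τ z → comp z p v →
      ∀ x ∈ N.forest.anc v, comp z p x) v ?_ ?_
    · intro v hv _ hc x hx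
      rw [N.forest.anc_none hv, mem_singleton] at hx
      rw [hx]; exact hc
    · intro v q hq ih hv hc x hx
      rw [N.forest.anc_some hq, mem_insert] at hx
      have hpa : pa q v := (par_some hq).1
      have hlt := N.lt q v hpa
      rcases hx with hx | hx
      · rw [hx]; exact hc
      · exact ih (by omega) (N.closed p z v q hc (by omega) (Or.inr hpa)) x hx
  have hcx : comp z p x := h1 p (N.lt p z hp) (N.self p z hp) x hx.2
  -- and so are their descendants before `z`
  have h2 : ∀ v, τ v < τ z → x ∈ N.forest.anc v → comp z p v := by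
    intro v
    refine N.forest.induct (motive := fun v => τ v < τ z → x ∈ N.forest.anc v → comp z p v)
      v ?_ ?_
    · intro v hv _ hx
      rw [N.forest.anc_none hv, mem_singleton] at hx
      rw [← hx]; exact hcx
    · intro v q hq ih hv hx
      rw [N.forest.anc_some hq, mem_insert] at hx
      have hpa : pa q v := (par_some hq).1
      have hlt := N.lt q v hpa
      rcases hx with hx | hx
      · rw [← hx]; exact hcx
      · exact N.closed p z q v (ih (by omega) hx) hv (Or.inl hpa)
  exact h2 i hi hx.1

/-- The statement to be proved by induction. -/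
def Good (i j : V) : Prop :=
  ((N.forest.anc i ∩ N.forest.anc j).Nonempty → C i j =
      N.sgn i * N.sgn j * Real.exp (-N.forest.dist (wt C pa) i j) *
        (Real.sqrt (C i i) * Real.sqrt (C j j))) ∧
    (¬ (N.forest.anc i ∩ N.forest.anc j).Nonempty → C i j ^ 2 ≤ C i i * C j j / 2)

theorem Good.symm {i j : V} (h : N.Good i j) : N.Good j i := by
  unfold Good at h ⊢
  rw [inter_comm, N.dist_comm, N.symm j i]
  constructor
  · intro hne
    rw [h.1 hne]
    ring
  · intro hne
    have := h.2 hne
    linarith

theorem good_self (i : V) : N.Good i i := by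
  constructor
  · intro _
    rw [N.dist_self, N.sgn_mul_self, neg_zero, Real.exp_zero, Real.mul_self_sqrt (N.diag_nonneg i)]
    ring
  · intro h
    exact absurd ⟨i, mem_inter.mpr ⟨N.forest.self_mem i, N.forest.self_mem i⟩⟩ h

theorem good_step {i z : V} (hi : τ i < τ z) (ih : ∀ i j, τ i < τ z → τ j < τ z → N.Good i j) :
    N.Good i z := by
  have hzi : z ∉ N.forest.anc i := by
    intro hz
    rcases N.forest.mem_le hz with h1 | h1
    · rw [h1] at hi; omega
    · rw [N.forest_tau, N.forest_tau] at h1; omega
  constructor
  · intro hne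
    cases hp : par C pa z with
    | none =>
      exfalso
      have hp' : N.forest.par z = none := hp
      obtain ⟨x, hx⟩ := hne
      rw [mem_inter, N.forest.anc_none hp', mem_singleton] at hx
      exact hzi (hx.2 ▸ hx.1)
    | some p =>
      have hp' : N.forest.par z = some p := hp
      have hs := par_some hp
      have hlt := N.lt p z hs.1
      obtain ⟨hpp, hzz⟩ := N.strong_pos hs
      have hne' : (N.forest.anc i ∩ N.forest.anc p).Nonempty := by
        obtain ⟨x, hx⟩ := hne
        rw [mem_inter, N.forest.anc_some hp', mem_insert] at hx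
        rcases hx.2 with h1 | h1
        · exact absurd (h1 ▸ hx.1) hzi
        · exact ⟨x, mem_inter.mpr ⟨hx.1, h1⟩⟩
      obtain ⟨β, hβ⟩ := N.recur p z hs.1
      have h1 := hβ i (N.comp_of_tree hs.1 hi hne')
      have h2 := hβ p (N.self p z hs.1)
      have h3 := (ih i p hi hlt).1 hne'
      have h4 := N.edge_eq hp
      have hsp : 0 < Real.sqrt (C p p) := Real.sqrt_pos.mpr hpp
      have hsq : Real.sqrt (C p p) * Real.sqrt (C p p) = C p p := Real.mul_self_sqrt hpp.le
      -- `β` in terms of the edge
      have hβ' : β * Real.sqrt (C p p) =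
          eps C pa z * Real.exp (-wt C pa z) * Real.sqrt (C z z) := by
        have : (β * Real.sqrt (C p p)) * Real.sqrt (C p p) =
            (eps C pa z * Real.exp (-wt C pa z) * Real.sqrt (C z z)) * Real.sqrt (C p p) := by
          rw [mul_assoc, hsq, ← h2, h4]
          ring
        exact mul_right_cancel₀ hsp.ne' this
      rw [h1, h3, N.dist_step hp hi, N.sgn_some hp, neg_add, Real.exp_add]
      have h5 : N.sgn i * N.sgn p * Real.exp (-N.forest.dist (wt C pa) i p) *
          (Real.sqrt (C i i) * Real.sqrt (C p p)) * β =
          N.sgn i * N.sgn p * Real.exp (-N.forest.dist (wt C pa) i p) *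
          Real.sqrt (C i i) * (β * Real.sqrt (C p p)) := by ring
      rw [mul_comm β, h5, hβ']
      ring
  · intro hne
    by_cases hall : ∀ u, pa u z → ¬ comp z u i
    · rw [N.zero z i hi hall]
      have := mul_nonneg (N.diag_nonneg i) (N.diag_nonneg z)
      nlinarith
    · push Not at hall
      obtain ⟨u, hu, hc⟩ := hall
      obtain ⟨β, hβ⟩ := N.recur u z hu
      have hlt := N.lt u z hu
      have h1 := hβ i hc
      have h2 := hβ u (N.self u z hu)
      have hui := N.cs i u
      have huz := N.cs u z
      rcases (N.diag_nonneg u).lt_or_eq with hpos | h0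
      · by_cases hs : Strong C pa u z
        · -- `u` is the strong parent
          have hp' : N.forest.par z = some u := N.par_eq_some hs
          have hne' : ¬ (N.forest.anc i ∩ N.forest.anc u).Nonempty := by
            rintro ⟨x, hx⟩
            rw [mem_inter] at hx
            apply hne
            refine ⟨x, mem_inter.mpr ⟨hx.1, ?_⟩⟩
            rw [N.forest.anc_some hp']
            exact mem_insert_of_mem hx.2
          have h3 := (ih i u hi hlt).2 hne'
          -- β² C u u ≤ C z z
          have h4 : β ^ 2 * C u u ≤ C z z := by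
            have : (β ^ 2 * C u u) * C u u ≤ C z z * C u u := by
              rw [h2] at huz
              nlinarith
            exact le_of_mul_le_mul_right this hpos
          rw [h1, mul_pow]
          have h5 : β ^ 2 * C i u ^ 2 ≤ β ^ 2 * (C i i * C u u / 2) :=
            mul_le_mul_of_nonneg_left h3 (sq_nonneg β)
          have h6 : C i i * (β ^ 2 * C u u) ≤ C i i * C z z :=
            mul_le_mul_of_nonneg_left h4 (N.diag_nonneg i)
          nlinarith
        · have hweak : C u z ^ 2 ≤ C u u * C z z / 2 := by
            by_contra hcon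
            exact hs ⟨hu, not_le.mp hcon⟩
          have h4 : β ^ 2 * C u u ≤ C z z / 2 := by
            have : (β ^ 2 * C u u) * C u u ≤ C z z / 2 * C u u := by
              rw [h2] at hweak
              nlinarith
            exact le_of_mul_le_mul_right this hpos
          rw [h1, mul_pow]
          have h5 : β ^ 2 * C i u ^ 2 ≤ β ^ 2 * (C i i * C u u) :=
            mul_le_mul_of_nonneg_left hui (sq_nonneg β)
          have h6 : C i i * (β ^ 2 * C u u) ≤ C i i * (C z z / 2) :=
            mul_le_mul_of_nonneg_left h4 (N.diag_nonneg i)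
          nlinarith
      · rw [← h0, mul_zero] at hui
        have h3 : C i u = 0 := by
          have : C i u ^ 2 = 0 := le_antisymm hui (sq_nonneg _)
          exact pow_eq_zero_iff (n := 2) (by norm_num) |>.mp this
        rw [h1, h3, mul_zero]
        have := mul_nonneg (N.diag_nonneg i) (N.diag_nonneg z)
        nlinarith

theorem good (i j : V) : N.Good i j := by
  have : ∀ n, ∀ i j, τ i < n → τ j < n → N.Good i j := by
    intro n
    induction n with
    | zero => intro i j hi; omega
    | succ n ih =>
      intro i j hi hj
      rcases lt_trichotomy (τ i) (τ j) with h | h | h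
      · exact N.good_step h fun a b ha hb => ih a b (by omega) (by omega)
      · rw [N.inj h]; exact N.good_self j
      · exact Good.symm N (N.good_step h fun a b ha hb => ih a b (by omega) (by omega))
  exact this (max (τ i) (τ j) + 1) i j (by omega) (by omega)

end CovNet

end Pool.Agent.MPbd47c3
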