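import Pool.Agent.MPbd47c3.Avg
import Pool.Agent.MPbd47c3.Strong

/-!
# Polytree networks
-/

namespace Pool.Agent.MPbd47c3

open Finset Function

variable {V : Type} [Fintype V] [DecidableEq V]

/-- A network in terms of conditional probability tables, with a topological order.
`θ v x` is the conditional probability of the value `x v` given the values of `x` at the parents
of `v`. -/
structure Net (G : V → V → Prop) (τ : V → ℕ) (θ : V → (V → Bool) → ℝ) : Prop where
  inj : Injective τ
  lt : ∀ u v, G u v → τ u < τ v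
  nonneg : ∀ v x, 0 ≤ θ v x
  sum_one : ∀ v x, θ v (update x v true) + θ v (update x v false) = 1
  loc : ∀ v x y, x v = y v → (∀ u, G u v → x u = y u) → θ v x = θ v y

namespace Net

variable {G : V → V → Prop} {τ : V → ℕ} {θ : V → (V → Bool) → ℝ} (N : Net G τ θ)

/-- expectation when only the tables in `S` are used -/
noncomputable def E (θ : V → (V → Bool) → ℝ) (S : Finset V) (f : (V → Bool) → ℝ) : ℝ :=
  avg fun x => f x * ∏ v ∈ S, (2 * θ v x)

include N in
/-- the basic elimination step -/
theorem elim {S : Finset V} {z : V} (hz : z ∈ S) (hS : ∀ v ∈ S, ¬ G z v)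
    {f h : (V → Bool) → ℝ} (hf : ∀ x b, f (update x z b) = f x) :
    E θ S (fun x => f x * h x) = E θ (S.erase z) (fun x => f x *
      (θ z (update x z true) * h (update x z true) +
        θ z (update x z false) * h (update x z false))) := by
  unfold E
  have hP : ∀ x b, ∏ v ∈ S.erase z, (2 * θ v (update x z b)) =
      ∏ v ∈ S.erase z, (2 * θ v x) := by
    intro x b
    refine prod_congr rfl fun v hv => ?_
    rw [mem_erase] at hv
    congr 1
    apply N.loc
    · rw [update_of_ne hv.1]
    · intro u hu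
      rw [update_of_ne]
      intro huz
      exact hS v hv.2 (huz ▸ hu)
  have e1 : (fun x : V → Bool => f x * h x * ∏ v ∈ S, (2 * θ v x)) =
      fun x => f x * h x * (2 * θ z x) * ∏ v ∈ S.erase z, (2 * θ v x) := by
    funext x
    rw [← mul_prod_erase S _ hz]
    ring
  rw [e1, avg_update _ z]
  congr 1
  funext x
  rw [hf, hf, hP, hP]
  ring

include N in
theorem remove {S : Finset V} {z : V} (hz : z ∈ S) (hS : ∀ v ∈ S, ¬ G z v)
    {f : (V → Bool) → ℝ} (hf : ∀ x b, f (update x z b) = f x) :
    E θ S f = E θ (S.erase z) f := by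
  have := N.elim hz hS (f := f) (h := fun _ => 1) hf
  simp only [mul_one, N.sum_one] at this
  exact this

/-- initial segment -/
def seg (τ : V → ℕ) (n : ℕ) : Finset V := univ.filter fun v => τ v < n

theorem mem_seg {n : ℕ} {v : V} : v ∈ seg τ n ↔ τ v < n := by simp [seg]

include N in
theorem seg_succ {n : ℕ} {f : (V → Bool) → ℝ} (hf : DepOn (seg τ n) f) :
    E θ (seg τ (n + 1)) f = E θ (seg τ n) f := by
  by_cases h : ∃ z, τ z = n
  · obtain ⟨z, hz⟩ := h
    have h1 : (seg τ (n + 1)).erase z = seg τ n := by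
      ext v
      rw [mem_erase, mem_seg, mem_seg]
      constructor
      · rintro ⟨h1, h2⟩
        have : τ v ≠ n := fun h3 => h1 (N.inj (h3.trans hz.symm))
        omega
      · intro h1
        refine ⟨fun h2 => ?_, by omega⟩
        rw [h2] at h1
        omega
    rw [N.remove (z := z) (mem_seg.mpr (by omega)), h1]
    · intro v hv hG
      have := N.lt z v hG
      rw [mem_seg] at hv
      omega
    · intro x b
      apply hf.update
      rw [mem_seg]
      omega
  · have h1 : seg τ (n + 1) = seg τ n := by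
      ext v
      rw [mem_seg, mem_seg]
      constructor
      · intro h1
        have : τ v ≠ n := fun h3 => h ⟨v, h3⟩
        omega
      · intro h1; omega
    rw [h1]

include N in
theorem seg_mono {n m : ℕ} (hnm : n ≤ m) {f : (V → Bool) → ℝ} (hf : DepOn (seg τ n) f) :
    E θ (seg τ m) f = E θ (seg τ n) f := by
  induction m, hnm using Nat.le_induction with
  | base => rfl
  | succ m hnm ih =>
    rw [N.seg_succ (hf.mono ?_), ih]
    intro v hv
    rw [mem_seg] at hv ⊢
    omega

include N in
theorem univ_eq {n : ℕ} {f : (V → Bool) → ℝ} (hf : DepOn (seg τ n) f) :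
    E θ univ f = E θ (seg τ n) f := by
  have h1 : seg τ (n + ∑ v, (τ v + 1)) = univ := by
    ext v
    rw [mem_seg]
    simp only [mem_univ, iff_true]
    have := single_le_sum (f := fun v => τ v + 1) (fun _ _ => Nat.zero_le _) (mem_univ v)
    omega
  rw [← h1]
  exact N.seg_mono (by omega) hf

theorem E_empty_const (c : ℝ) : E θ ∅ (fun _ => c) = c := by
  unfold E avg
  simp

include N in
theorem E_one (n : ℕ) : E θ (seg τ n) (fun _ => 1) = 1 := by
  rw [N.seg_mono (Nat.zero_le n) (DepOn.const 1)]
  have : seg τ 0 = ∅ := by ext v; simp [seg]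
  rw [this, E_empty_const]

include N in
theorem E_univ_one : E θ univ (fun _ => 1) = 1 := by
  rw [N.univ_eq (n := 0) (DepOn.const 1), N.E_one]

include N in
/-- independence of unions of components -/
theorem indep {n : ℕ} {A : Finset V} (hA : A ⊆ seg τ n)
    (hcl : ∀ a ∈ A, ∀ b ∈ seg τ n, G a b ∨ G b a → b ∈ A)
    {f g : (V → Bool) → ℝ} (hf : DepOn A f) (hg : DepOn (seg τ n \ A) g) :
    E θ (seg τ n) (fun x => f x * g x) = E θ (seg τ n) f * E θ (seg τ n) g := by
  have hPA : DepOn A (fun x => ∏ v ∈ A, (2 * θ v x)) := by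
    apply DepOn.prod
    intro v hv x y hxy
    change 2 * θ v x = 2 * θ v y
    congr 1
    apply N.loc
    · exact hxy v hv
    · intro u hu
      apply hxy
      apply hcl v hv u _ (Or.inr hu)
      have h1 := N.lt u v hu
      have h2 := hA hv
      rw [mem_seg] at h2 ⊢
      omega
  have hPB : DepOn (seg τ n \ A) (fun x => ∏ v ∈ seg τ n \ A, (2 * θ v x)) := by
    apply DepOn.prod
    intro v hv x y hxy
    change 2 * θ v x = 2 * θ v y
    congr 1
    apply N.loc
    · exact hxy v hv
    · intro u hu
      apply hxy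
      rw [mem_sdiff] at hv ⊢
      have h1 := N.lt u v hu
      have h2 := hv.1
      rw [mem_seg] at h2 ⊢
      refine ⟨by omega, fun hu' => hv.2 ?_⟩
      exact hcl u hu' v hv.1 (Or.inl hu)
  have hsub : seg τ n \ A ⊆ Aᶜ := by
    intro v hv
    rw [mem_sdiff] at hv
    rw [mem_compl]
    exact hv.2
  have hsplit : ∀ x, ∏ v ∈ seg τ n, (2 * θ v x) =
      (∏ v ∈ A, (2 * θ v x)) * ∏ v ∈ seg τ n \ A, (2 * θ v x) := by
    intro x
    rw [mul_comm, prod_sdiff hA]
  have key : ∀ F H : (V → Bool) → ℝ, DepOn A F → DepOn (seg τ n \ A) H →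
      E θ (seg τ n) (fun x => F x * H x) =
        avg (fun x => F x * ∏ v ∈ A, (2 * θ v x)) *
          avg (fun x => H x * ∏ v ∈ seg τ n \ A, (2 * θ v x)) := by
    intro F H hF hH
    rw [← avg_mul (hF.mul hPA) ((hH.mul hPB).mono hsub)]
    unfold E
    congr 1
    funext x
    rw [hsplit]
    ring
  have k1 := key f g hf hg
  have k2 := key f (fun _ => 1) hf (DepOn.const 1)
  have k3 := key (fun _ => 1) g (DepOn.const 1) hg
  have k4 := key (fun _ => 1) (fun _ => 1) (DepOn.const 1) (DepOn.const 1)
  simp only [mul_one, one_mul] at k1 k2 k3 k4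
  rw [N.E_one] at k4
  rw [k1, k2, k3]
  linear_combination
    (avg (fun x => f x * ∏ v ∈ A, (2 * θ v x)) *
      avg (fun x => g x * ∏ v ∈ seg τ n \ A, (2 * θ v x))) * k4

/-- the variable `X_v` -/
def X (v : V) (x : V → Bool) : ℝ := if x v then 1 else 0

theorem X_depOn {A : Finset V} {v : V} (hv : v ∈ A) : DepOn A (X v) := by
  intro x y hxy
  unfold X
  rw [hxy v hv]

theorem X_mul_self (v : V) (x : V → Bool) : X v x * X v x = X v x := by
  unfold X
  split_ifs <;> norm_num

theorem E_add (S : Finset V) (f g : (V → Bool) → ℝ) :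
    E θ S (fun x => f x + g x) = E θ S f + E θ S g := by
  unfold E avg
  rw [← add_div, ← sum_add_distrib]
  congr 1
  exact sum_congr rfl fun x _ => by ring

theorem E_mul (S : Finset V) (c : ℝ) (f : (V → Bool) → ℝ) :
    E θ S (fun x => c * f x) = c * E θ S f := by
  unfold E avg
  rw [← mul_div_assoc, mul_sum]
  congr 1
  exact sum_congr rfl fun x _ => by ring

/-- covariance -/
noncomputable def Cov (θ : V → (V → Bool) → ℝ) (i j : V) : ℝ :=
  E θ univ (fun x => X i x * X j x) - E θ univ (X i) * E θ univ (X j)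

/-- the graph on the vertices before `n` -/
def H (G : V → V → Prop) (τ : V → ℕ) (n : ℕ) : SimpleGraph V where
  Adj a b := (SimpleGraph.fromRel G).Adj a b ∧ τ a < n ∧ τ b < n
  symm := ⟨fun a b h => ⟨h.1.symm, h.2.2, h.2.1⟩⟩
  loopless := ⟨fun a h => (SimpleGraph.fromRel G).loopless.irrefl a h.1⟩

theorem H_le (n : ℕ) : H G τ n ≤ SimpleGraph.fromRel G := fun _ _ h => h.1

theorem reach_lt {n : ℕ} {u i : V} (hu : τ u < n) (h : (H G τ n).Reachable u i) : τ i < n := by
  obtain ⟨p⟩ := h
  induction p with
  | nil => exact hu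
  | cons hadj _ ih => exact ih hadj.2.2

/-- component of `u` before `z` -/
def comp (G : V → V → Prop) (τ : V → ℕ) (z u i : V) : Prop :=
  τ u < τ z ∧ (H G τ (τ z)).Reachable u i

theorem walk_support {n : ℕ} {u i : V} (hu : τ u < n) (p : (H G τ n).Walk u i) :
    ∀ v ∈ p.support, τ v < n := by
  induction p with
  | nil =>
    intro v hv
    rw [SimpleGraph.Walk.support_nil, List.mem_singleton] at hv
    rw [hv]; exact hu
  | cons hadj q ih =>
    intro v hv
    rw [SimpleGraph.Walk.support_cons, List.mem_cons] at hv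
    rcases hv with hv | hv
    · rw [hv]; exact hu
    · exact ih hadj.2.2 v hv

include N in
theorem parents_not_comp (hT : (SimpleGraph.fromRel G).IsAcyclic) {u u' z : V} (hu : G u z)
    (hu' : G u' z) (hne : u ≠ u') : ¬ comp G τ z u u' := by
  classical
  rintro ⟨hlt, ⟨p⟩⟩
  have huz : u ≠ z := by
    intro h; have := N.lt u z hu; rw [h] at this; omega
  have hu'z : u' ≠ z := by
    intro h; have := N.lt u' z hu'; rw [h] at this; omega
  have a1 : (SimpleGraph.fromRel G).Adj u z := by
    rw [SimpleGraph.fromRel_adj]; exact ⟨huz, Or.inl hu⟩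
  have a2 : (SimpleGraph.fromRel G).Adj z u' := by
    rw [SimpleGraph.fromRel_adj]; exact ⟨hu'z.symm, Or.inr hu'⟩
  -- the path through `z`
  let q : (SimpleGraph.fromRel G).Walk u u' := .cons a1 (.cons a2 .nil)
  have hq : q.IsPath := by
    rw [SimpleGraph.Walk.isPath_def]
    simp only [q, SimpleGraph.Walk.support_cons, SimpleGraph.Walk.support_nil,
      List.nodup_cons, List.mem_cons, List.not_mem_nil, or_false, not_or]
    exact ⟨⟨huz, hne⟩, hu'z.symm, fun h => h, List.nodup_nil⟩
  let r : (SimpleGraph.fromRel G).Walk u u' := (p.toPath : (H G τ (τ z)).Walk u u').mapLe (H_le _)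
  have hr : r.IsPath := (SimpleGraph.Walk.isPath_mapLe (H_le _)).mpr p.toPath.2
  have heq := (hT.subsingleton_path u u').elim ⟨q, hq⟩ ⟨r, hr⟩
  have heq' : q = r := congrArg Subtype.val heq
  have hz : z ∈ q.support := by
    simp [q]
  rw [heq'] at hz
  have hz' : z ∈ (p.toPath : (H G τ (τ z)).Walk u u').support := by
    simpa [r] using hz
  have := walk_support hlt _ z hz'
  omega

open Classical in
/-- the component as a finset -/
noncomputable def cp (G : V → V → Prop) (τ : V → ℕ) (z u : V) : Finset V :=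
  univ.filter fun i => comp G τ z u i

theorem mem_cp {z u i : V} : i ∈ cp G τ z u ↔ comp G τ z u i := by simp [cp]

include N in
theorem comp_closed {z u a b : V} (ha : comp G τ z u a) (hb : τ b < τ z) (hG : G a b ∨ G b a) :
    comp G τ z u b := by
  refine ⟨ha.1, ha.2.trans (SimpleGraph.Adj.reachable ?_)⟩
  refine ⟨?_, reach_lt ha.1 ha.2, hb⟩
  rw [SimpleGraph.fromRel_adj]
  refine ⟨?_, hG⟩
  rintro rfl
  rcases hG with h | h <;> exact absurd (N.lt a a h) (lt_irrefl _)

theorem comp_self {z u : V} (h : τ u < τ z) : comp G τ z u u := ⟨h, SimpleGraph.Reachable.refl u⟩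

theorem cp_subset (z u : V) : cp G τ z u ⊆ seg τ (τ z) := by
  intro i hi
  rw [mem_cp] at hi
  rw [mem_seg]
  exact reach_lt hi.1 hi.2

include N in
theorem cp_closed (z u : V) :
    ∀ a ∈ cp G τ z u, ∀ b ∈ seg τ (τ z), G a b ∨ G b a → b ∈ cp G τ z u := by
  intro a ha b hb hG
  rw [mem_cp] at ha ⊢
  exact N.comp_closed ha (mem_seg.mp hb) hG

include N in
/-- expectation of a product with `X_z` -/
theorem E_mul_X (z : V) {f : (V → Bool) → ℝ} (hf : DepOn (seg τ (τ z)) f) :
    E θ univ (fun x => f x * X z x) =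
      E θ (seg τ (τ z)) (fun x => f x * θ z (update x z true)) := by
  have hzs : z ∈ seg τ (τ z + 1) := by rw [mem_seg]; omega
  have hsub : seg τ (τ z) ⊆ seg τ (τ z + 1) := by
    intro v hv
    rw [mem_seg] at hv ⊢
    omega
  rw [N.univ_eq (n := τ z + 1) ((hf.mono hsub).mul (X_depOn hzs))]
  have hzn : z ∉ seg τ (τ z) := by rw [mem_seg]; omega
  rw [N.elim hzs _ (fun x b => hf.update hzn x b)]
  · have h1 : (seg τ (τ z + 1)).erase z = seg τ (τ z) := by
      ext v
      rw [mem_erase, mem_seg, mem_seg]
      constructor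
      · rintro ⟨h1, h2⟩
        have : τ v ≠ τ z := fun h3 => h1 (N.inj h3)
        omega
      · intro h1
        refine ⟨fun h2 => ?_, by omega⟩
        rw [h2] at h1
        omega
    rw [h1]
    congr 1
    funext x
    simp [X]
  · intro v hv hG
    have := N.lt z v hG
    rw [mem_seg] at hv
    omega

include N in
theorem theta_depOn (z : V) {B : Finset V} (hB : ∀ u, G u z → u ∈ B) :
    DepOn B (fun x => θ z (update x z true)) := by
  intro x y hxy
  apply N.loc
  · simp
  · intro u hu
    have : u ≠ z := by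
      intro h; have := N.lt u z hu; rw [h] at this; omega
    rw [update_of_ne this, update_of_ne this]
    exact hxy u (hB u hu)

include N in
/-- the recursion -/
theorem cov_rec (hT : (SimpleGraph.fromRel G).IsAcyclic) {u z : V} (hu : G u z) :
    ∃ β : ℝ, ∀ i, comp G τ z u i → Cov θ i z = β * Cov θ i u := by
  have hlt := N.lt u z hu
  have huz : u ≠ z := by intro h; rw [h] at hlt; omega
  -- the table with the value at `u` fixed
  let t : Bool → (V → Bool) → ℝ := fun b x => θ z (update (update x u b) z true)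
  have hucp : u ∈ cp G τ z u := mem_cp.mpr (comp_self hlt)
  have ht : ∀ b, DepOn (seg τ (τ z) \ cp G τ z u) (t b) := by
    intro b x y hxy
    simp only [t]
    apply N.loc
    · simp
    · intro v hv
      have hvz : v ≠ z := by
        intro h; have := N.lt v z hv; rw [h] at this; omega
      rw [update_of_ne hvz, update_of_ne hvz]
      by_cases hvu : v = u
      · subst hvu; simp
      · rw [update_of_ne hvu, update_of_ne hvu]
        apply hxy
        rw [mem_sdiff, mem_seg, mem_cp]
        exact ⟨N.lt v z hv, N.parents_not_comp hT hu hv (Ne.symm hvu)⟩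
  -- key computation
  have key : ∀ f : (V → Bool) → ℝ, DepOn (cp G τ z u) f →
      E θ univ (fun x => f x * X z x) =
        E θ (seg τ (τ z)) (t false) * E θ univ f +
          (E θ (seg τ (τ z)) (t true) - E θ (seg τ (τ z)) (t false)) *
            E θ univ (fun x => f x * X u x) := by
    intro f hf
    have hf' := hf.mono (cp_subset z u)
    have hfu : DepOn (cp G τ z u) (fun x => f x * X u x) := hf.mul (X_depOn hucp)
    rw [N.E_mul_X z hf', N.univ_eq (n := τ z) hf', N.univ_eq (n := τ z) (hfu.mono (cp_subset z u))]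
    have e1 : (fun x => f x * θ z (update x z true)) =
        fun x => (f x * t false x) + ((f x * X u x) * t true x +
          (-1) * ((f x * X u x) * t false x)) := by
      funext x
      have hx : x = update x u (x u) := by simp
      simp only [t, X]
      cases h : x u
      · rw [h] at hx
        rw [← hx]
        simp
      · rw [h] at hx
        rw [← hx]
        simp
    rw [e1, E_add, E_add, E_mul, N.indep (cp_subset z u) (N.cp_closed z u) hf (ht false),
      N.indep (cp_subset z u) (N.cp_closed z u) hfu (ht true),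
      N.indep (cp_subset z u) (N.cp_closed z u) hfu (ht false)]
    ring
  refine ⟨E θ (seg τ (τ z)) (t true) - E θ (seg τ (τ z)) (t false), fun i hi => ?_⟩
  have k1 := key (X i) (X_depOn (mem_cp.mpr hi))
  have k2 := key (fun _ => 1) (DepOn.const 1)
  simp only [one_mul] at k2
  rw [N.E_univ_one, mul_one] at k2
  unfold Cov
  rw [k1]
  have k2' : E θ univ (X z) = E θ (seg τ (τ z)) (t false) +
      (E θ (seg τ (τ z)) (t true) - E θ (seg τ (τ z)) (t false)) * E θ univ (X u) := k2
  rw [k2']
  ring

include N in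
theorem cov_zero {z i : V} (hi : τ i < τ z) (h : ∀ u, G u z → ¬ comp G τ z u i) :
    Cov θ i z = 0 := by
  have hicp : i ∈ cp G τ z i := mem_cp.mpr (comp_self hi)
  have hθ : DepOn (seg τ (τ z) \ cp G τ z i) (fun x => θ z (update x z true)) := by
    apply N.theta_depOn
    intro u hu
    rw [mem_sdiff, mem_seg, mem_cp]
    refine ⟨N.lt u z hu, fun hc => h u hu ?_⟩
    exact ⟨N.lt u z hu, hc.2.symm⟩
  have hXi : DepOn (cp G τ z i) (X i) := X_depOn hicp
  have k1 := N.E_mul_X z (hXi.mono (cp_subset z i))
  have k2 := N.E_mul_X z (DepOn.const (A := seg τ (τ z)) 1)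
  simp only [one_mul] at k2
  have k2' : E θ univ (X z) = E θ (seg τ (τ z)) (fun x => θ z (update x z true)) := k2
  unfold Cov
  rw [k1, k2', N.univ_eq (n := τ z) (hXi.mono (cp_subset z i)),
    N.indep (cp_subset z i) (N.cp_closed z i) hXi hθ]
  ring

include N in
theorem cov_parents (hT : (SimpleGraph.fromRel G).IsAcyclic) {u u' z : V} (hu : G u z)
    (hu' : G u' z) (hne : u ≠ u') : Cov θ u u' = 0 := by
  have hlt := N.lt u z hu
  have hlt' := N.lt u' z hu'
  have h1 : DepOn (cp G τ z u) (X u) := X_depOn (mem_cp.mpr (comp_self hlt))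
  have h2 : DepOn (seg τ (τ z) \ cp G τ z u) (X u') := by
    apply X_depOn
    rw [mem_sdiff, mem_seg, mem_cp]
    exact ⟨hlt', N.parents_not_comp hT hu hu' hne⟩
  have h1' := h1.mono (cp_subset z u)
  have h2' : DepOn (seg τ (τ z)) (X u') := h2.mono sdiff_subset
  unfold Cov
  rw [N.univ_eq (n := τ z) h1', N.univ_eq (n := τ z) h2', N.univ_eq (n := τ z) (h1'.mul h2'),
    N.indep (cp_subset z u) (N.cp_closed z u) h1 h2]
  ring

include N in
theorem E_nonneg (S : Finset V) {f : (V → Bool) → ℝ} (hf : ∀ x, 0 ≤ f x) : 0 ≤ E θ S f := by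
  unfold E avg
  apply div_nonneg _ (by positivity)
  exact sum_nonneg fun x _ => mul_nonneg (hf x)
    (prod_nonneg fun v _ => mul_nonneg zero_le_two (N.nonneg v x))

theorem Cov_symm (i j : V) : Cov θ i j = Cov θ j i := by
  unfold Cov
  rw [mul_comm (E θ univ (X i))]
  congr 2
  funext x
  ring

theorem Cov_self (i : V) : Cov θ i i = E θ univ (X i) * (1 - E θ univ (X i)) := by
  unfold Cov
  have : (fun x : V → Bool => X i x * X i x) = X i := by
    funext x
    exact X_mul_self i x
  rw [this]
  ring

include N in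
/-- positive semidefiniteness on three vectors -/
theorem psd (z u u' : V) (a b c : ℝ) :
    0 ≤ c ^ 2 * Cov θ z z + a ^ 2 * Cov θ u u + b ^ 2 * Cov θ u' u' + 2 * (c * a) * Cov θ u z +
      2 * (c * b) * Cov θ u' z + 2 * (a * b) * Cov θ u u' := by
  set m : ℝ := c * E θ univ (X z) + a * E θ univ (X u) + b * E θ univ (X u') with hm
  have h := N.E_nonneg univ (f := fun x => (c * X z x + a * X u x + b * X u' x + (-m)) ^ 2)
    (fun x => sq_nonneg _)
  have e : (fun x : V → Bool => (c * X z x + a * X u x + b * X u' x + (-m)) ^ 2) =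
      fun x => c ^ 2 * (X z x * X z x) + (a ^ 2 * (X u x * X u x) + (b ^ 2 * (X u' x * X u' x) +
        (2 * (c * a) * (X u x * X z x) + (2 * (c * b) * (X u' x * X z x) +
        (2 * (a * b) * (X u x * X u' x) + ((-2 * m * c) * X z x + ((-2 * m * a) * X u x +
        ((-2 * m * b) * X u' x + (m ^ 2) * 1)))))))) := by
    funext x
    ring
  rw [e] at h
  simp only [E_add, E_mul] at h
  rw [N.E_univ_one] at h
  unfold Cov
  have e2 : E θ univ (fun x => X z x) = E θ univ (X z) := rfl
  have e3 : E θ univ (fun x => X u x) = E θ univ (X u) := rfl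
  have e4 : E θ univ (fun x => X u' x) = E θ univ (X u') := rfl
  rw [e2, e3, e4] at h
  refine h.trans (le_of_eq ?_)
  rw [hm]
  ring

include N in
theorem Cov_self_nonneg (i : V) : 0 ≤ Cov θ i i := by
  have := N.psd i i i 0 0 1
  linarith

include N in
theorem Cov_cs (i j : V) : Cov θ i j ^ 2 ≤ Cov θ i i * Cov θ j j := by
  have h : ∀ a b : ℝ, 0 ≤ a ^ 2 * Cov θ i i + 2 * (a * b) * Cov θ i j + b ^ 2 * Cov θ j j := by
    intro a b
    have := N.psd j i i a 0 b
    linarith
  have hi := N.Cov_self_nonneg i
  have hj := N.Cov_self_nonneg j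
  rcases hj.lt_or_eq with hj' | hj'
  · have h1 := h (Cov θ j j) (-Cov θ i j)
    have h2 : 0 ≤ Cov θ j j * (Cov θ i i * Cov θ j j - Cov θ i j ^ 2) := by nlinarith
    have h3 := nonneg_of_mul_nonneg_right h2 hj'
    linarith
  · rw [← hj'] at h ⊢
    rcases hi.lt_or_eq with hi' | hi'
    · have h1 := h (-Cov θ i j) (Cov θ i i)
      have h2 : 0 ≤ Cov θ i i * (-Cov θ i j ^ 2) := by nlinarith
      have h3 := nonneg_of_mul_nonneg_right h2 hi'
      linarith
    · rw [← hi'] at h ⊢
      have h1 := h 1 (-Cov θ i j)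
      nlinarith

include N in
theorem covNet (hT : (SimpleGraph.fromRel G).IsAcyclic) :
    CovNet (Cov θ) τ G (comp G τ) where
  symm := Cov_symm
  diag_nonneg := N.Cov_self_nonneg
  cs := N.Cov_cs
  bessel z u u' h a b := by
    have := N.psd z u u' (-a) (-b) 1
    rw [h] at this
    linarith
  inj := N.inj
  lt := N.lt
  self u z h := comp_self (N.lt u z h)
  closed u z i j h hj hG := N.comp_closed h hj hG
  recur u z h := N.cov_rec hT h
  zero z i hi h := N.cov_zero hi h
  parents u u' z hu hu' hne := N.cov_parents hT hu hu' hne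

include N in
theorem E_X_mem (i : V) : 0 ≤ E θ univ (X i) ∧ E θ univ (X i) ≤ 1 := by
  constructor
  · apply N.E_nonneg
    intro x
    unfold X
    split_ifs <;> norm_num
  · have h := N.E_nonneg univ (f := fun x => 1 + (-1) * X i x) (fun x => by
      unfold X
      split_ifs <;> norm_num)
    rw [E_add, E_mul, N.E_univ_one] at h
    have : E θ univ (fun x => X i x) = E θ univ (X i) := rfl
    rw [this] at h
    linarith

/-- the distance in terms of second order data -/
theorem dist_formula (i j : V) :
    E θ univ (fun x => if x i = x j then 0 else 1) =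
      (E θ univ (X i) - E θ univ (X j)) ^ 2 + Cov θ i i + Cov θ j j - 2 * Cov θ i j := by
  have e : (fun x : V → Bool => if x i = x j then (0 : ℝ) else 1) =
      fun x => X i x + (X j x + (-2) * (X i x * X j x)) := by
    funext x
    unfold X
    cases x i <;> cases x j <;> norm_num
  rw [e]
  simp only [E_add, E_mul]
  rw [Cov_self, Cov_self]
  unfold Cov
  have e2 : E θ univ (fun x => X i x) = E θ univ (X i) := rfl
  have e3 : E θ univ (fun x => X j x) = E θ univ (X j) := rfl
  rw [e2, e3]
  ring

include N in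
theorem abs_sub_le (i j : V) : |E θ univ (X i) - E θ univ (X j)| ≤
    E θ univ (fun x => if x i = x j then 0 else 1) := by
  have h : ∀ s : ℝ, s = 1 ∨ s = -1 → s * (E θ univ (X i) - E θ univ (X j)) ≤
      E θ univ (fun x => if x i = x j then 0 else 1) := by
    intro s hs
    have h := N.E_nonneg univ
      (f := fun x => (if x i = x j then 0 else 1) + ((-s) * X i x + s * X j x)) (fun x => by
        unfold X
        rcases hs with rfl | rfl <;> cases x i <;> cases x j <;> norm_num)
    simp only [E_add, E_mul] at h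
    have e2 : E θ univ (fun x => X i x) = E θ univ (X i) := rfl
    have e3 : E θ univ (fun x => X j x) = E θ univ (X j) := rfl
    rw [e2, e3] at h
    linarith
  rw [abs_le]
  have h1 := h 1 (Or.inl rfl)
  have h2 := h (-1) (Or.inr rfl)
  constructor <;> linarith

include N in
/-- The embedding theorem for polytree networks given by tables. -/
theorem embedding (hT : (SimpleGraph.fromRel G).IsAcyclic)
    {q₁ q₂ : ℕ} (E₁ : V × Bool → (Fin q₁ × Fin q₁) → ℝ) (hE₁ : IsCode E₁)
    (E₂ : V → (Fin q₂ × Fin q₂) → ℝ) (hE₂ : IsCode E₂) :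
    ∃ f : V → Idx V q₁ q₂ → ℝ, ∀ i j,
      E θ univ (fun x => if x i = x j then 0 else 1) / 264 ≤ l1 (f i - f j) ∧
      l1 (f i - f j) ≤ 326 * E θ univ (fun x => if x i = x j then 0 else 1) := by
  have M := N.covNet hT
  obtain ⟨f, hf⟩ := cone_embedding M.forest (CovNet.wt (Cov θ) G) M.wt_nonneg M.sgn M.sgn_sq
    (fun v => E θ univ (X v)) (fun v => (N.E_X_mem v).1) (fun v => (N.E_X_mem v).2) (Cov θ)
    (fun v => Cov_self v) N.Cov_cs
    (fun u v => by rw [← dist_formula]; exact N.abs_sub_le u v)
    (fun u v => (M.good u v).1) (fun u v => (M.good u v).2) E₁ hE₁ E₂ hE₂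
  refine ⟨f, fun i j => ?_⟩
  have := hf i j
  rw [dist_formula]
  exact this

end Net

end Pool.Agent.MPbd47c3
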