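import Pool.Agent.MPbd47c3.Forest

/-!
# Embedding truncated forest metrics in `ℓ₁` of polylogarithmic dimension
-/

namespace Pool.Agent.MPbd47c3

open Finset

namespace Forest

variable {V : Type} [DecidableEq V] (F : Forest V) (w : V → ℝ)

/-- depth -/
noncomputable def depth (v : V) : ℝ := ∑ x ∈ F.anc v, w x

theorem not_mem_anc_par {v p : V} (h : F.par v = some p) : v ∉ F.anc p := by
  intro hv
  have h1 := F.lt v p h
  rcases F.mem_le hv with h2 | h2
  · rw [h2] at h1; omega
  · omega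

theorem depth_some {v p : V} (h : F.par v = some p) : F.depth w v = F.depth w p + w v := by
  unfold depth
  rw [F.anc_some h, sum_insert (F.not_mem_anc_par h), add_comm]

/-- length of the path between two vertices of the same tree -/
noncomputable def dist (u v : V) : ℝ :=
  ∑ x ∈ F.anc u \ F.anc v, w x + ∑ x ∈ F.anc v \ F.anc u, w x

/-- index of the window containing `v`, for the shift `s` -/
noncomputable def win (s : ℕ) (v : V) : ℤ := ⌊(F.depth w v - s) / 8⌋

/-- position in the window -/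
noncomputable def pos (s : ℕ) (v : V) : ℝ := F.depth w v - s - 8 * (F.win w s v : ℝ)

theorem pos_nonneg (s : ℕ) (v : V) : 0 ≤ F.pos w s v := by
  unfold pos win
  have := Int.floor_le ((F.depth w v - s) / 8)
  linarith

theorem pos_lt (s : ℕ) (v : V) : F.pos w s v < 8 := by
  unfold pos win
  have := Int.lt_floor_add_one ((F.depth w v - s) / 8)
  linarith

theorem win_eq_of {s : ℕ} {v : V} {k : ℤ} (h1 : 0 ≤ F.depth w v - s - 8 * (k : ℝ))
    (h2 : F.depth w v - s - 8 * (k : ℝ) < 8) : F.win w s v = k := by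
  unfold win
  rw [Int.floor_eq_iff]
  constructor <;> linarith

variable {w}

theorem depth_mono (hw : ∀ v, 0 ≤ w v) {x v : V} (h : x ∈ F.anc v) :
    F.depth w x ≤ F.depth w v :=
  sum_le_sum_of_subset_of_nonneg (F.anc_subset h) fun _ _ _ => hw _

theorem win_mono (hw : ∀ v, 0 ≤ w v) (s : ℕ) {x v : V} (h : x ∈ F.anc v) :
    F.win w s x ≤ F.win w s v := by
  unfold win
  apply Int.floor_le_floor
  have := F.depth_mono hw h
  linarith

variable (w)

/-- the forest cut at the window boundaries -/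
noncomputable def cut (s : ℕ) : Forest V where
  par v := (F.par v).filter fun p => decide (F.win w s p = F.win w s v)
  τ := F.τ
  lt v p h := by
    rw [Option.filter_eq_some_iff] at h
    exact F.lt v p h.1

theorem cut_par_some {s : ℕ} {v p : V} :
    (F.cut w s).par v = some p ↔ F.par v = some p ∧ F.win w s p = F.win w s v := by
  simp only [cut]
  rw [Option.filter_eq_some_iff]
  simp

theorem cut_par_none {s : ℕ} {v : V} :
    (F.cut w s).par v = none ↔ ∀ p, F.par v = some p → F.win w s p ≠ F.win w s v := by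
  simp only [cut]
  rw [Option.filter_eq_none_iff]
  simp

variable {w}

theorem mem_cut_anc (hw : ∀ v, 0 ≤ w v) (s : ℕ) (x v : V) :
    x ∈ (F.cut w s).anc v ↔ x ∈ F.anc v ∧ F.win w s x = F.win w s v := by
  refine (F.cut w s).induct
    (motive := fun v => x ∈ (F.cut w s).anc v ↔ x ∈ F.anc v ∧ F.win w s x = F.win w s v) v ?_ ?_
  · intro v hv
    rw [(F.cut w s).anc_none hv, mem_singleton]
    constructor
    · rintro rfl
      exact ⟨F.self_mem _, rfl⟩
    · rintro ⟨h1, h2⟩
      rw [F.cut_par_none] at hv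
      cases hp : F.par v with
      | none => rw [F.anc_none hp] at h1; simpa using h1
      | some p =>
        rw [F.anc_some hp, mem_insert] at h1
        rcases h1 with h1 | h1
        · exact h1
        · exfalso
          have h3 := F.win_mono hw s h1
          have h4 : F.win w s p ≤ F.win w s v :=
            F.win_mono hw s (by rw [F.anc_some hp]; exact mem_insert_of_mem (F.self_mem p))
          exact hv p hp (le_antisymm h4 (h2 ▸ h3))
  · intro v p hp ih
    rw [(F.cut w s).anc_some hp, mem_insert, ih]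
    rw [F.cut_par_some] at hp
    rw [F.anc_some hp.1, mem_insert, hp.2]
    constructor
    · rintro (rfl | h)
      · exact ⟨Or.inl rfl, rfl⟩
      · exact ⟨Or.inr h.1, h.2⟩
    · rintro ⟨h1 | h1, h2⟩
      · exact Or.inl h1
      · exact Or.inr ⟨h1, h2⟩

variable (w)

/-- the part of the edge above `v` in the window of `v` -/
noncomputable def len (s : ℕ) (v : V) : ℝ :=
  if (F.cut w s).par v = none then F.pos w s v else w v

theorem sum_len (s : ℕ) (v : V) : ∑ x ∈ (F.cut w s).anc v, F.len w s x = F.pos w s v := by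
  refine (F.cut w s).induct
    (motive := fun v => ∑ x ∈ (F.cut w s).anc v, F.len w s x = F.pos w s v) v ?_ ?_
  · intro v hv
    rw [(F.cut w s).anc_none hv, sum_singleton, len, if_pos hv]
  · intro v p hp ih
    rw [(F.cut w s).anc_some hp, sum_insert ((F.cut w s).not_mem_anc_par hp), ih, len,
      if_neg (by rw [hp]; simp)]
    rw [F.cut_par_some] at hp
    unfold pos
    rw [hp.2, F.depth_some w hp.1]
    ring

variable {w}

theorem len_nonneg (hw : ∀ v, 0 ≤ w v) (s : ℕ) (v : V) : 0 ≤ F.len w s v := by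
  unfold len
  split_ifs
  · exact F.pos_nonneg w s v
  · exact hw v

/-- the fading function -/
noncomputable def fade (x : ℝ) : ℝ := min 1 (2 - x / 4)

theorem fade_nonneg {x : ℝ} (h : x ≤ 8) : 0 ≤ fade x := by
  unfold fade
  apply le_min <;> linarith

theorem fade_le_one (x : ℝ) : fade x ≤ 1 := min_le_left _ _

theorem fade_eq_one {x : ℝ} (h : x ≤ 4) : fade x = 1 := by
  unfold fade
  exact min_eq_left (by linarith)

theorem fade_mul_le {x : ℝ} (h0 : 0 ≤ x) (h : x ≤ 8) : fade x * x ≤ 2 * (8 - x) := by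
  have h1 : fade x ≤ 2 - x / 4 := min_le_right _ _
  have h2 := mul_le_mul_of_nonneg_right h1 h0
  nlinarith [mul_nonneg (sub_nonneg.mpr h) (sub_nonneg.mpr h)]

theorem abs_fade_sub_le (x y : ℝ) : |fade x - fade y| ≤ |x - y| / 4 := by
  unfold fade
  have := abs_min_sub_min_le_max (1 : ℝ) (2 - x / 4) 1 (2 - y / 4)
  refine this.trans ?_
  rw [sub_self, abs_zero, max_eq_right (abs_nonneg _)]
  apply le_of_eq
  rw [show (2 - x / 4 - (2 - y / 4) : ℝ) = -((x - y) / 4) by ring, abs_neg, abs_div]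
  norm_num

variable {κ : Type} [Fintype κ] (E : V → κ → ℝ) [Fintype V]

/-- the unfaded vector of the shift `s` -/
noncomputable def raw (w : V → ℝ) (E : V → κ → ℝ) (s : ℕ) (v : V) :
    (Fin (Nat.log 2 (Fintype.card V) + 1) × κ) → ℝ :=
  ∑ x ∈ (F.cut w s).anc v, F.len w s x • (F.cut w s).vec E x

/-- the vector of the shift `s` -/
noncomputable def sh (w : V → ℝ) (E : V → κ → ℝ) (s : ℕ) (v : V) :
    (Fin (Nat.log 2 (Fintype.card V) + 1) × κ) → ℝ :=
  fade (F.pos w s v) • F.raw w E s v

variable {E}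

theorem l1_raw_le (hw : ∀ v, 0 ≤ w v) (hE : IsCode E) (s : ℕ) (v : V) :
    l1 (F.raw w E s v) ≤ F.pos w s v := by
  rw [← F.sum_len w s v]
  exact (F.cut w s).l1_sum_vec_le hE _ _ fun x _ => F.len_nonneg hw s x

theorem l1_sh_le (hw : ∀ v, 0 ≤ w v) (hE : IsCode E) (s : ℕ) (v : V) :
    l1 (F.sh w E s v) ≤ fade (F.pos w s v) * F.pos w s v := by
  unfold sh
  rw [l1_smul, abs_of_nonneg (fade_nonneg (F.pos_lt w s v).le)]
  exact mul_le_mul_of_nonneg_left (F.l1_raw_le hw hE s v) (fade_nonneg (F.pos_lt w s v).le)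

theorem l1_sh_le_pos (hw : ∀ v, 0 ≤ w v) (hE : IsCode E) (s : ℕ) (v : V) :
    l1 (F.sh w E s v) ≤ F.pos w s v :=
  (F.l1_sh_le hw hE s v).trans
    (mul_le_of_le_one_left (F.pos_nonneg w s v) (fade_le_one _))

theorem l1_sh_par (hw : ∀ v, 0 ≤ w v) (hE : IsCode E) (s : ℕ) {v p : V}
    (hp : F.par v = some p) : l1 (F.sh w E s v - F.sh w E s p) ≤ 3 * w v := by
  by_cases hwin : F.win w s p = F.win w s v
  · have hcut : (F.cut w s).par v = some p := (F.cut_par_some w).mpr ⟨hp, hwin⟩
    have hraw : F.raw w E s v = F.raw w E s p + w v • (F.cut w s).vec E v := by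
      unfold raw
      rw [(F.cut w s).anc_some hcut, sum_insert ((F.cut w s).not_mem_anc_par hcut),
        add_comm (F.len w s v • (F.cut w s).vec E v)]
      congr 2
      rw [len, if_neg (by rw [hcut]; simp)]
    have hpos : F.pos w s v = F.pos w s p + w v := by
      unfold pos
      rw [hwin, F.depth_some w hp]
      ring
    have e : F.sh w E s v - F.sh w E s p =
        (fade (F.pos w s v) - fade (F.pos w s p)) • F.raw w E s p +
          (fade (F.pos w s v) * w v) • (F.cut w s).vec E v := by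
      unfold sh
      rw [hraw, smul_add, smul_smul, sub_smul]
      abel
    rw [e]
    refine (l1_add_le _ _).trans ?_
    rw [l1_smul, l1_smul, (F.cut w s).l1_vec hE, mul_one,
      abs_of_nonneg (mul_nonneg (fade_nonneg (F.pos_lt w s v).le) (hw v))]
    have h1 : |fade (F.pos w s v) - fade (F.pos w s p)| ≤ w v / 4 := by
      refine (abs_fade_sub_le _ _).trans (le_of_eq ?_)
      rw [hpos, add_sub_cancel_left, abs_of_nonneg (hw v)]
    have h2 : l1 (F.raw w E s p) ≤ 8 := (F.l1_raw_le hw hE s p).trans (F.pos_lt w s p).le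
    have h3 := mul_le_mul h1 h2 (l1_nonneg _) (by have := hw v; linarith)
    have h4 : fade (F.pos w s v) * w v ≤ 1 * w v :=
      mul_le_mul_of_nonneg_right (fade_le_one _) (hw v)
    linarith
  · -- the edge crosses a window boundary
    have hle : F.win w s p ≤ F.win w s v :=
      F.win_mono hw s (by rw [F.anc_some hp]; exact mem_insert_of_mem (F.self_mem p))
    have hlt : F.win w s p + 1 ≤ F.win w s v := by
      rcases hle.lt_or_eq with h | h
      · omega
      · exact absurd h hwin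
    have hlt' : (F.win w s p : ℝ) + 1 ≤ (F.win w s v : ℝ) := by exact_mod_cast hlt
    have hd := F.depth_some w hp
    have hsum : (8 - F.pos w s p) + F.pos w s v ≤ w v := by
      unfold pos
      linarith
    have h1 := F.l1_sh_le_pos hw hE s v
    have h2 := F.l1_sh_le hw hE s p
    have h3 := fade_mul_le (F.pos_nonneg w s p) (F.pos_lt w s p).le
    have h4 := l1_sub_le (F.sh w E s v) (F.sh w E s p)
    have h5 := F.pos_nonneg w s v
    have h6 := F.pos_lt w s p
    have h7 := hw v
    linarith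

theorem l1_sh_anc (hw : ∀ v, 0 ≤ w v) (hE : IsCode E) (s : ℕ) {x v : V}
    (h : x ∈ F.anc v) :
    l1 (F.sh w E s v - F.sh w E s x) ≤ 3 * (F.depth w v - F.depth w x) := by
  revert h
  refine F.induct (motive := fun v => x ∈ F.anc v →
    l1 (F.sh w E s v - F.sh w E s x) ≤ 3 * (F.depth w v - F.depth w x)) v ?_ ?_
  · intro v hv h
    rw [F.anc_none hv, mem_singleton] at h
    rw [h, sub_self, l1_zero]
    simp
  · intro v p hp ih h
    rw [F.anc_some hp, mem_insert] at h
    rcases h with h | h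
    · rw [h, sub_self, l1_zero]
      simp
    · have h1 := ih h
      have h2 := F.l1_sh_par hw hE s hp
      have h3 := l1_sub_triangle (F.sh w E s v) (F.sh w E s p) (F.sh w E s x)
      rw [F.depth_some w hp]
      linarith

theorem dist_eq {u v x : V} (hx : F.anc x = F.anc u ∩ F.anc v) :
    F.dist w u v = (F.depth w u - F.depth w x) + (F.depth w v - F.depth w x) := by
  unfold dist depth
  have h1 : ∑ y ∈ F.anc u \ F.anc v, w y + ∑ y ∈ F.anc x, w y = ∑ y ∈ F.anc u, w y := by
    rw [hx, ← sum_union]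
    · congr 1
      ext y
      simp only [mem_union, mem_sdiff, mem_inter]
      tauto
    · rw [disjoint_left]
      intro y hy hy'
      rw [mem_sdiff] at hy
      rw [mem_inter] at hy'
      exact hy.2 hy'.2
  have h2 : ∑ y ∈ F.anc v \ F.anc u, w y + ∑ y ∈ F.anc x, w y = ∑ y ∈ F.anc v, w y := by
    rw [hx, ← sum_union]
    · congr 1
      ext y
      simp only [mem_union, mem_sdiff, mem_inter]
      tauto
    · rw [disjoint_left]
      intro y hy hy'
      rw [mem_sdiff] at hy
      rw [mem_inter] at hy'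
      exact hy.2 hy'.1
  linarith

theorem l1_sh_le_dist (hw : ∀ v, 0 ≤ w v) (hE : IsCode E) (s : ℕ) {u v : V}
    (h : (F.anc u ∩ F.anc v).Nonempty) :
    l1 (F.sh w E s u - F.sh w E s v) ≤ 3 * F.dist w u v := by
  obtain ⟨x, hx⟩ := F.exists_lca h
  have hxu : x ∈ F.anc u := (mem_inter.mp (hx ▸ F.self_mem x)).1
  have hxv : x ∈ F.anc v := (mem_inter.mp (hx ▸ F.self_mem x)).2
  rw [F.dist_eq hx]
  have h1 := F.l1_sh_anc hw hE s hxu
  have h2 := F.l1_sh_anc hw hE s hxv
  have h3 := l1_sub_triangle (F.sh w E s u) (F.sh w E s x) (F.sh w E s v)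
  rw [l1_sub_comm (F.sh w E s x)] at h3
  linarith

/-- lower bound, near case -/
theorem l1_sh_near (hw : ∀ v, 0 ≤ w v) (hE : IsCode E) (s : ℕ) {u v x : V}
    (hx : F.anc x = F.anc u ∩ F.anc v) (hx1 : F.pos w s x ≤ 1)
    (hu : F.depth w u - F.depth w x ≤ 2) (hv : F.depth w v - F.depth w x ≤ 2) :
    F.dist w u v / 2 ≤ l1 (F.sh w E s u - F.sh w E s v) := by
  have hxu : x ∈ F.anc u := (mem_inter.mp (hx ▸ F.self_mem x)).1
  have hxv : x ∈ F.anc v := (mem_inter.mp (hx ▸ F.self_mem x)).2
  -- everything between is in the window of `x`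
  have hwin : ∀ y, x ∈ F.anc y → F.depth w y - F.depth w x ≤ 2 → F.win w s y = F.win w s x := by
    intro y hy hy2
    have hd := F.depth_mono hw hy
    have h0 := F.pos_nonneg w s x
    unfold pos at h0 hx1
    apply F.win_eq_of w
    · linarith
    · linarith
  have hpos : ∀ y, x ∈ F.anc y → F.depth w y - F.depth w x ≤ 2 → fade (F.pos w s y) = 1 := by
    intro y hy hy2
    apply fade_eq_one
    have h1 := hwin y hy hy2
    unfold pos at hx1 ⊢
    rw [h1]
    linarith
  have hgen : ∀ u v : V, F.anc x = F.anc u ∩ F.anc v → x ∈ F.anc u →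
      F.depth w u - F.depth w x ≤ 2 → x ∈ F.anc v → F.depth w v - F.depth w x ≤ 2 →
      (F.cut w s).anc u \ (F.cut w s).anc v = F.anc u \ F.anc v ∧
      ∀ y ∈ F.anc u \ F.anc v, F.len w s y = w y := by
    intro u v hx hxu hu hxv hv
    have hbetween : ∀ y ∈ F.anc u \ F.anc v, x ∈ F.anc y ∧ F.win w s y = F.win w s x := by
      intro y hy
      rw [mem_sdiff] at hy
      have hxy : x ∈ F.anc y := by
        rcases F.chain hxu hy.1 with h | h
        · exact h
        · exact absurd (F.anc_trans h hxv) hy.2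
      refine ⟨hxy, hwin y hxy ?_⟩
      have := F.depth_mono hw hy.1
      linarith
    constructor
    · ext y
      rw [mem_sdiff, mem_sdiff, F.mem_cut_anc hw, F.mem_cut_anc hw]
      constructor
      · rintro ⟨⟨h1, h2⟩, h3⟩
        refine ⟨h1, fun h4 => h3 ⟨h4, ?_⟩⟩
        rw [h2, hwin u hxu hu, hwin v hxv hv]
      · rintro ⟨h1, h2⟩
        refine ⟨⟨h1, ?_⟩, fun h3 => h2 h3.1⟩
        rw [(hbetween y (mem_sdiff.mpr ⟨h1, h2⟩)).2, hwin u hxu hu]
    · intro y hy
      obtain ⟨hxy, hwy⟩ := hbetween y hy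
      unfold len
      rw [if_neg]
      intro hnone
      rw [F.cut_par_none] at hnone
      cases hp : F.par y with
      | none =>
        rw [F.anc_none hp, mem_singleton] at hxy
        rw [mem_sdiff] at hy
        exact hy.2 (hxy ▸ hxv)
      | some p =>
        apply hnone p hp
        rw [F.anc_some hp, mem_insert] at hxy
        rcases hxy with hxy | hxy
        · rw [mem_sdiff] at hy
          exact absurd (hxy ▸ hxv) hy.2
        · have h1 := F.win_mono hw s hxy
          have h2 : F.win w s p ≤ F.win w s y :=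
            F.win_mono hw s (by rw [F.anc_some hp]; exact mem_insert_of_mem (F.self_mem p))
          omega
  obtain ⟨hu1, hu2⟩ := hgen u v hx hxu hu hxv hv
  obtain ⟨hv1, hv2⟩ := hgen v u (by rw [inter_comm]; exact hx) hxv hv hxu hu
  have e1 : F.sh w E s u = F.raw w E s u := by
    unfold sh; rw [hpos u hxu hu, one_smul]
  have e2 : F.sh w E s v = F.raw w E s v := by
    unfold sh; rw [hpos v hxv hv, one_smul]
  rw [e1, e2]
  have e3 : F.raw w E s u - F.raw w E s v =
      ∑ y ∈ F.anc u \ F.anc v, w y • (F.cut w s).vec E y -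
        ∑ y ∈ F.anc v \ F.anc u, w y • (F.cut w s).vec E y := by
    unfold raw
    rw [← sum_inter_add_sum_sdiff ((F.cut w s).anc u) ((F.cut w s).anc v),
      ← sum_inter_add_sum_sdiff ((F.cut w s).anc v) ((F.cut w s).anc u), hu1, hv1,
      inter_comm ((F.cut w s).anc v), add_sub_add_left_eq_sub]
    congr 1
    · exact sum_congr rfl fun y hy => by rw [hu2 y hy]
    · exact sum_congr rfl fun y hy => by rw [hv2 y hy]
  rw [e3]
  unfold dist
  apply (F.cut w s).lower hE (u := u) (v := v)
  · rw [← hu1]; exact sdiff_subset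
  · rw [← hv1]; exact sdiff_subset
  · intro y hy
    rw [← hu1] at hy
    exact (mem_sdiff.mp hy).2
  · intro y hy
    rw [← hv1] at hy
    exact (mem_sdiff.mp hy).2
  · intro y _; exact hw y
  · intro y _; exact hw y

/-- lower bound, far case -/
theorem l1_sh_far (hw : ∀ v, 0 ≤ w v) (hE : IsCode E) (s : ℕ) {u v x : V}
    (hx : F.anc x = F.anc u ∩ F.anc v) (hu1 : 1 ≤ F.pos w s u) (hu2 : F.pos w s u ≤ 2)
    (hu : 2 < F.depth w u - F.depth w x) :
    1 / 2 ≤ l1 (F.sh w E s u - F.sh w E s v) := by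
  have hfu : fade (F.pos w s u) = 1 := fade_eq_one (by linarith)
  have hfv : 0 ≤ fade (F.pos w s v) := fade_nonneg (F.pos_lt w s v).le
  have hxu : x ∈ F.anc u := (mem_inter.mp (hx ▸ F.self_mem x)).1
  have hdis : ∀ y, y ∈ (F.cut w s).anc u → y ∉ (F.cut w s).anc v := by
    intro y hy hy'
    rw [F.mem_cut_anc hw] at hy hy'
    have hyx : y ∈ F.anc x := by rw [hx]; exact mem_inter.mpr ⟨hy.1, hy'.1⟩
    have h1 := F.depth_mono hw hyx
    have h2 := F.pos_nonneg w s y
    unfold pos at h2 hu1 hu2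
    rw [hy.2] at h2
    linarith
  have e : F.sh w E s u - F.sh w E s v =
      ∑ y ∈ (F.cut w s).anc u, F.len w s y • (F.cut w s).vec E y -
        ∑ y ∈ (F.cut w s).anc v, (fade (F.pos w s v) * F.len w s y) • (F.cut w s).vec E y := by
    unfold sh raw
    rw [hfu, one_smul, smul_sum]
    simp only [smul_smul]
  rw [e]
  have h := (F.cut w s).lower hE (u := u) (v := v) (A := (F.cut w s).anc u)
    (B := (F.cut w s).anc v) subset_rfl subset_rfl hdis (fun y hy hy' => hdis y hy' hy)
    (fun y => F.len w s y) (fun y => fade (F.pos w s v) * F.len w s y)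
    (fun y _ => F.len_nonneg hw s y) (fun y _ => mul_nonneg hfv (F.len_nonneg hw s y))
  refine le_trans ?_ h
  rw [← mul_sum, F.sum_len, F.sum_len]
  have := mul_nonneg hfv (F.pos_nonneg w s v)
  linarith

theorem exists_shift (x : ℝ) : ∃ s : Fin 8, ∃ k : ℤ, 0 ≤ x - (s : ℕ) - 8 * (k : ℝ) ∧
    x - (s : ℕ) - 8 * (k : ℝ) < 1 := by
  refine ⟨⟨(⌊x⌋ % 8).toNat, ?_⟩, ⌊x⌋ / 8, ?_⟩
  · have := Int.emod_lt_of_pos ⌊x⌋ (by norm_num : (0 : ℤ) < 8)
    have := Int.emod_nonneg ⌊x⌋ (by norm_num : (8 : ℤ) ≠ 0)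
    omega
  · have h0 := Int.emod_nonneg ⌊x⌋ (by norm_num : (8 : ℤ) ≠ 0)
    have h1 : (((⌊x⌋ % 8).toNat : ℕ) : ℝ) = ((⌊x⌋ % 8 : ℤ) : ℝ) := by
      have : (((⌊x⌋ % 8).toNat : ℕ) : ℤ) = ⌊x⌋ % 8 := Int.toNat_of_nonneg h0
      exact_mod_cast this
    have h2 : ((⌊x⌋ % 8 : ℤ) : ℝ) + 8 * ((⌊x⌋ / 8 : ℤ) : ℝ) = (⌊x⌋ : ℝ) := by
      exact_mod_cast Int.emod_add_mul_ediv ⌊x⌋ 8
    have h3 := Int.floor_le x
    have h4 := Int.lt_floor_add_one x
    simp only [h1]
    constructor <;> linarith

theorem exists_lower (hw : ∀ v, 0 ≤ w v) (hE : IsCode E) {u v : V}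
    (h : (F.anc u ∩ F.anc v).Nonempty) :
    ∃ s : Fin 8, min 1 (F.dist w u v) / 2 ≤ l1 (F.sh w E s u - F.sh w E s v) := by
  obtain ⟨x, hx⟩ := F.exists_lca h
  by_cases hu : F.depth w u - F.depth w x ≤ 2
  · by_cases hv : F.depth w v - F.depth w x ≤ 2
    · obtain ⟨s, k, h0, h1⟩ := exists_shift (F.depth w x)
      have hwin : F.win w s x = k := F.win_eq_of w h0 (by linarith)
      refine ⟨s, le_trans ?_ (F.l1_sh_near hw hE s hx ?_ hu hv)⟩
      · have := min_le_right 1 (F.dist w u v)
        linarith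
      · unfold pos
        rw [hwin]
        linarith
    · obtain ⟨s, k, h0, h1⟩ := exists_shift (F.depth w v - 1)
      have hwin : F.win w s v = k := F.win_eq_of w (by linarith) (by linarith)
      refine ⟨s, ?_⟩
      rw [l1_sub_comm]
      refine le_trans ?_ (F.l1_sh_far hw hE s (by rw [inter_comm]; exact hx) ?_ ?_ (not_le.mp hv))
      · have := min_le_left 1 (F.dist w u v)
        linarith
      · unfold pos
        rw [hwin]
        linarith
      · unfold pos
        rw [hwin]
        linarith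
  · obtain ⟨s, k, h0, h1⟩ := exists_shift (F.depth w u - 1)
    have hwin : F.win w s u = k := F.win_eq_of w (by linarith) (by linarith)
    refine ⟨s, ?_⟩
    refine le_trans ?_ (F.l1_sh_far hw hE s hx ?_ ?_ (not_le.mp hu))
    · have := min_le_left 1 (F.dist w u v)
      linarith
    · unfold pos
      rw [hwin]
      linarith
    · unfold pos
      rw [hwin]
      linarith

/-- the embedding of the truncated metric -/
noncomputable def emb (w : V → ℝ) (E : V → κ → ℝ) (v : V) :
    (Fin 8 × (Fin (Nat.log 2 (Fintype.card V) + 1) × κ)) → ℝ :=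
  fun c => F.sh w E c.1 v c.2

theorem l1_emb_sub (u v : V) : l1 (F.emb w E u - F.emb w E v) =
    ∑ s : Fin 8, l1 (F.sh w E s u - F.sh w E s v) := by
  unfold l1 emb
  rw [Fintype.sum_prod_type]
  rfl

theorem l1_emb (v : V) : l1 (F.emb w E v) = ∑ s : Fin 8, l1 (F.sh w E s v) := by
  unfold l1 emb
  rw [Fintype.sum_prod_type]

theorem l1_sh_le_eight (hw : ∀ v, 0 ≤ w v) (hE : IsCode E) (s : ℕ) (v : V) :
    l1 (F.sh w E s v) ≤ 8 :=
  (F.l1_sh_le_pos hw hE s v).trans (F.pos_lt w s v).le

theorem l1_emb_le (hw : ∀ v, 0 ≤ w v) (hE : IsCode E) (v : V) : l1 (F.emb w E v) ≤ 64 := by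
  rw [F.l1_emb]
  have h : ∀ s ∈ (univ : Finset (Fin 8)), l1 (F.sh w E s v) ≤ 8 :=
    fun s _ => F.l1_sh_le_eight hw hE s v
  refine (sum_le_sum h).trans ?_
  simp
  norm_num

theorem dist_nonneg (hw : ∀ v, 0 ≤ w v) (u v : V) : 0 ≤ F.dist w u v :=
  add_nonneg (sum_nonneg fun _ _ => hw _) (sum_nonneg fun _ _ => hw _)

theorem emb_upper (hw : ∀ v, 0 ≤ w v) (hE : IsCode E) {u v : V}
    (h : (F.anc u ∩ F.anc v).Nonempty) :
    l1 (F.emb w E u - F.emb w E v) ≤ 128 * min 1 (F.dist w u v) := by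
  rw [F.l1_emb_sub]
  have hk : ∀ s : Fin 8, l1 (F.sh w E s u - F.sh w E s v) ≤ 16 * min 1 (F.dist w u v) := by
    intro s
    have h1 := F.l1_sh_le_dist hw hE s h
    have h2 := l1_sub_le (F.sh w E s u) (F.sh w E s v)
    have h3 := F.l1_sh_le_eight hw hE s u
    have h4 := F.l1_sh_le_eight hw hE s v
    have h5 := F.dist_nonneg hw u v
    rcases le_total 1 (F.dist w u v) with h | h
    · rw [min_eq_left h]; linarith
    · rw [min_eq_right h]; linarith
  refine (sum_le_sum fun s _ => hk s).trans ?_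
  simp
  linarith

theorem emb_lower (hw : ∀ v, 0 ≤ w v) (hE : IsCode E) {u v : V}
    (h : (F.anc u ∩ F.anc v).Nonempty) :
    min 1 (F.dist w u v) / 2 ≤ l1 (F.emb w E u - F.emb w E v) := by
  obtain ⟨s, hs⟩ := F.exists_lower hw hE h
  rw [F.l1_emb_sub]
  exact hs.trans (single_le_sum (f := fun s : Fin 8 => l1 (F.sh w E s u - F.sh w E s v))
    (fun _ _ => l1_nonneg _) (mem_univ s))

end Forest

end Pool.Agent.MPbd47c3
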